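import Mathlib
import Pool.Agent.W367.ST.B
import Pool.Agent.W546.N4.Defs

/-!
# N4-NF: matrix lemmas
-/
set_option autoImplicit false
open Matrix MeasureTheory Set Metric Filter Topology
open scoped ENNReal Nat

namespace Pool.Agent.W451.N4
open Pool.Agent.Helper82.OS Pool.Agent.W546.ST Pool.Agent.W546.N4 Pool.Agent.W367.ST

theorem one_sub_sum_le {ι : Type*} (s : Finset ι) (f : ι → ℝ) (h0 : ∀ i ∈ s, 0 ≤ f i)
    (h1 : ∀ i ∈ s, f i ≤ 1) : 1 - ∑ i ∈ s, f i ≤ ∏ i ∈ s, (1 - f i) ∧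
      0 ≤ ∏ i ∈ s, (1 - f i) ∧ ∏ i ∈ s, (1 - f i) ≤ 1 := by
  classical
  induction s using Finset.induction_on with
  | empty => simp
  | insert a s ha ih =>
    obtain ⟨i1, i2, i3⟩ := ih (fun i hi => h0 i (Finset.mem_insert_of_mem hi))
      (fun i hi => h1 i (Finset.mem_insert_of_mem hi))
    have a0 := h0 a (Finset.mem_insert_self _ _)
    have a1 := h1 a (Finset.mem_insert_self _ _)
    rw [Finset.sum_insert ha, Finset.prod_insert ha]
    refine ⟨?_, mul_nonneg (by linarith) i2, ?_⟩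
    · nlinarith
    · nlinarith

theorem one_add_sum_le {ι : Type*} (s : Finset ι) (f : ι → ℝ) (h0 : ∀ i ∈ s, 0 ≤ f i) :
    1 + ∑ i ∈ s, f i ≤ ∏ i ∈ s, (1 + f i) ∧ 0 ≤ ∑ i ∈ s, f i := by
  classical
  induction s using Finset.induction_on with
  | empty => simp
  | insert a s ha ih =>
    obtain ⟨i1, i2⟩ := ih (fun i hi => h0 i (Finset.mem_insert_of_mem hi))
    have a0 := h0 a (Finset.mem_insert_self _ _)
    rw [Finset.sum_insert ha, Finset.prod_insert ha]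
    refine ⟨?_, add_nonneg a0 i2⟩
    nlinarith

/-- diagonalisation of a Gram matrix -/
theorem gram_diag {N : ℕ} {ι : Type*} [Fintype ι] (X : Matrix (Fin N) ι ℝ) :
    ∃ (U : Matrix (Fin N) (Fin N) ℝ) (d : Fin N → ℝ), Uᵀ * U = 1 ∧ U * Uᵀ = 1 ∧
      Uᵀ * (X * Xᵀ) * U = Matrix.diagonal d ∧ (∀ i, 0 ≤ d i) ∧ (X * Xᵀ).trace = ∑ i, d i := by
  have hH : (X * Xᵀ).IsHermitian := by
    rw [Matrix.IsHermitian, Matrix.conjTranspose_eq_transpose_of_trivial, Matrix.transpose_mul,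
      Matrix.transpose_transpose]
  obtain ⟨U, d, h1, h2, h3⟩ := exists_diag0 _ hH
  refine ⟨U, d, h1, h2, h3, ?_, ?_⟩
  · intro i
    have e : Uᵀ * (X * Xᵀ) * U = (Uᵀ * X) * (Uᵀ * X)ᵀ := by
      rw [Matrix.transpose_mul, Matrix.transpose_transpose]
      simp only [Matrix.mul_assoc]
    have h4 : d i = ((Uᵀ * X) * (Uᵀ * X)ᵀ) i i := by
      rw [← e, h3, Matrix.diagonal_apply_eq]
    rw [h4, Matrix.mul_apply]
    refine Finset.sum_nonneg fun k _ => ?_
    rw [Matrix.transpose_apply]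
    exact mul_self_nonneg _
  · have : (Uᵀ * (X * Xᵀ) * U).trace = (X * Xᵀ).trace := by
      rw [Matrix.trace_mul_comm, ← Matrix.mul_assoc, h2, Matrix.one_mul]
    rw [← this, h3, Matrix.trace_diagonal]

theorem det_one_add_gram {N : ℕ} {ι : Type*} [Fintype ι] (X : Matrix (Fin N) ι ℝ) :
    1 + (X * Xᵀ).trace ≤ (1 + X * Xᵀ).det := by
  obtain ⟨U, d, h1, h2, h3, h4, h5⟩ := gram_diag X
  have e : (1 + X * Xᵀ).det = ∏ i, (1 + d i) := by
    have e1 : Uᵀ * (1 + X * Xᵀ) * U = Matrix.diagonal (fun i => 1 + d i) := by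
      rw [Matrix.mul_add, Matrix.mul_one, Matrix.add_mul, h1, h3, ← Matrix.diagonal_one,
        Matrix.diagonal_add]
    have e2 : (Uᵀ * (1 + X * Xᵀ) * U).det = (1 + X * Xᵀ).det := by
      rw [Matrix.det_mul, Matrix.det_mul]
      have : Uᵀ.det * U.det = 1 := by rw [← Matrix.det_mul, h1, Matrix.det_one]
      calc Uᵀ.det * (1 + X * Xᵀ).det * U.det = (Uᵀ.det * U.det) * (1 + X * Xᵀ).det := by ring
        _ = _ := by rw [this, one_mul]
    rw [← e2, e1, Matrix.det_diagonal]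
  rw [e, h5]
  exact (one_add_sum_le Finset.univ d fun i _ => h4 i).1

theorem det_one_sub_gram {N : ℕ} {ι : Type*} [Fintype ι] (X : Matrix (Fin N) ι ℝ)
    (ht : (X * Xᵀ).trace ≤ 1) : 1 - (X * Xᵀ).trace ≤ (1 - X * Xᵀ).det := by
  obtain ⟨U, d, h1, h2, h3, h4, h5⟩ := gram_diag X
  have e : (1 - X * Xᵀ).det = ∏ i, (1 - d i) := by
    have e1 : Uᵀ * (1 - X * Xᵀ) * U = Matrix.diagonal (fun i => 1 - d i) := by
      rw [Matrix.mul_sub, Matrix.mul_one, Matrix.sub_mul, h1, h3, ← Matrix.diagonal_one,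
        Matrix.diagonal_sub]
    have e2 : (Uᵀ * (1 - X * Xᵀ) * U).det = (1 - X * Xᵀ).det := by
      rw [Matrix.det_mul, Matrix.det_mul]
      have : Uᵀ.det * U.det = 1 := by rw [← Matrix.det_mul, h1, Matrix.det_one]
      calc Uᵀ.det * (1 - X * Xᵀ).det * U.det = (Uᵀ.det * U.det) * (1 - X * Xᵀ).det := by ring
        _ = _ := by rw [this, one_mul]
    rw [← e2, e1, Matrix.det_diagonal]
  rw [e, h5]
  refine (one_sub_sum_le Finset.univ d (fun i _ => h4 i) fun i _ => ?_).1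
  have : d i ≤ ∑ i, d i := Finset.single_le_sum (fun j _ => h4 j) (Finset.mem_univ i)
  linarith

/-- derivative of a determinant at the identity -/
theorem hasDerivAt_det {N : ℕ} (S T : Matrix (Fin N) (Fin N) ℝ) :
    HasDerivAt (fun ε : ℝ => (1 + ε • S + ε ^ 2 • T).det) S.trace 0 := by
  have hM : ∀ i j, HasDerivAt (fun ε : ℝ => (1 + ε • S + ε ^ 2 • T) i j) (S i j) 0 := by
    intro i j
    have h1 : (fun ε : ℝ => (1 + ε • S + ε ^ 2 • T) i j)
        = fun ε : ℝ => (1 : Matrix (Fin N) (Fin N) ℝ) i j + ε * S i j + ε ^ 2 * T i j := by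
      ext ε; simp
    rw [h1]
    have h2 := (((hasDerivAt_id (0 : ℝ)).mul_const (S i j)).const_add
      ((1 : Matrix (Fin N) (Fin N) ℝ) i j)).fun_add
      (((hasDerivAt_id (0 : ℝ)).fun_pow 2).mul_const (T i j))
    simpa using h2
  have h3 : ∀ σ : Equiv.Perm (Fin N), HasDerivAt
      (fun ε : ℝ => ((Equiv.Perm.sign σ : ℤ) : ℝ) * ∏ i, (1 + ε • S + ε ^ 2 • T) (σ i) i)
      (if σ = 1 then S.trace else 0) 0 := by
    intro σ
    have h4 := (HasDerivAt.fun_finsetProd (u := Finset.univ)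
      (f := fun i (ε : ℝ) => (1 + ε • S + ε ^ 2 • T) (σ i) i) (fun i _ => hM (σ i) i)).const_mul
        ((Equiv.Perm.sign σ : ℤ) : ℝ)
    refine h4.congr_deriv ?_
    split_ifs with hσ
    · subst hσ
      simp only [Equiv.Perm.sign_one, Equiv.Perm.one_apply]
      rw [Matrix.trace]
      simp
    · have h5 : ∃ i0, σ i0 ≠ i0 := by
        by_contra hc
        push Not at hc
        exact hσ (Equiv.ext hc)
      obtain ⟨i0, hi0⟩ := h5
      have hi1 : σ (σ i0) ≠ σ i0 := fun h => hi0 (σ.injective h)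
      rw [Finset.sum_eq_zero, mul_zero]
      intro i _
      rw [smul_eq_mul, Finset.prod_eq_zero_iff.2, zero_mul]
      by_cases h : i = i0
      · refine ⟨σ i0, Finset.mem_erase.2 ⟨by rw [h]; exact hi0, Finset.mem_univ _⟩, ?_⟩
        simp [hi1]
      · refine ⟨i0, Finset.mem_erase.2 ⟨Ne.symm h, Finset.mem_univ _⟩, ?_⟩
        simp [hi0]
  have h6 : (fun ε : ℝ => (1 + ε • S + ε ^ 2 • T).det)
      = fun ε : ℝ => ∑ σ : Equiv.Perm (Fin N), ((Equiv.Perm.sign σ : ℤ) : ℝ)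
        * ∏ i, (1 + ε • S + ε ^ 2 • T) (σ i) i := by
    ext ε; rw [Matrix.det_apply']
  rw [h6]
  refine (HasDerivAt.fun_sum fun σ _ => h3 σ).congr_deriv ?_
  simp

theorem trace_zero_of_max {N : ℕ} (S T : Matrix (Fin N) (Fin N) ℝ) (c : ℝ) (m : ℕ)
    (h : ∀ ε : ℝ, (1 + ε • S + ε ^ 2 • T).det ≤ (1 + c * ε ^ 2) ^ m) : S.trace = 0 := by
  have h1 : HasDerivAt (fun ε : ℝ => (1 + c * ε ^ 2) ^ m) 0 0 := by
    have h2 : HasDerivAt (fun ε : ℝ => 1 + c * ε ^ 2) 0 0 := by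
      have := (((hasDerivAt_id (0 : ℝ)).fun_pow 2).const_mul c).const_add 1
      simpa using this
    simpa using h2.fun_pow m
  have h3 := h1.sub (hasDerivAt_det S T)
  have h4 : IsLocalMin ((fun ε : ℝ => (1 + c * ε ^ 2) ^ m) - fun ε : ℝ => (1 + ε • S + ε ^ 2 • T).det)
      0 := by
    refine Filter.Eventually.of_forall fun ε => ?_
    have := h ε
    simp only [Pi.sub_apply]
    simp
    linarith
  have h5 := h4.hasDerivAt_eq_zero h3
  linarith

end Pool.Agent.W451.N4
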