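import Mathlib
import Pool.Agent.W451.N4.A
import Pool.Agent.W367.ST.NFG

/-!
# N4-NF: the family of skew maps of a plane
-/
set_option autoImplicit false
open Matrix MeasureTheory Set Metric Filter Topology
open scoped ENNReal Nat

namespace Pool.Agent.W451.N4
open Pool.Agent.Helper82.OS Pool.Agent.W546.ST Pool.Agent.W546.N4 Pool.Agent.W367.ST

/-- vectors defining the family -/
structure PD where
  E1 : E 6
  E2 : E 6
  Ah : Fin 4 → E 6
  Ch : Fin 4 → E 6
  w : Fin 4 → ℝ
  h11 : inner ℝ E1 E1 = 1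
  h22 : inner ℝ E2 E2 = 1
  h12 : inner ℝ E1 E2 = 0
  hA1 : ∀ j, inner ℝ E1 (Ah j) = 0
  hA2 : ∀ j, inner ℝ E2 (Ah j) = 0
  hC1 : ∀ j, inner ℝ E1 (Ch j) = 0
  hC2 : ∀ j, inner ℝ E2 (Ch j) = 0
  on : ∀ i j, inner ℝ (Ah i) (Ah j) + inner ℝ (Ch i) (Ch j) + w i * w j = if i = j then 1 else 0

namespace PD
variable (D : PD)

/-- the skew maps -/
noncomputable def b (j : Fin 4) : E 6 →ₗ[ℝ] E 6 :=
  wd D.E1 (D.Ah j) + wd D.E2 (D.Ch j) + D.w j • wd D.E1 D.E2

theorem b_apply (j : Fin 4) (z : E 6) : D.b j z =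
    (inner ℝ D.E1 z • D.Ah j + inner ℝ D.E2 z • D.Ch j)
      - (inner ℝ (D.Ah j) z + inner ℝ D.E2 z * D.w j) • D.E1
      - (inner ℝ (D.Ch j) z - inner ℝ D.E1 z * D.w j) • D.E2 := by
  simp only [b, LinearMap.add_apply, LinearMap.smul_apply, wd_apply]
  module

theorem h21 : inner ℝ D.E2 D.E1 = 0 := by rw [real_inner_comm]; exact D.h12
theorem hA1' (j : Fin 4) : inner ℝ (D.Ah j) D.E1 = 0 := by rw [real_inner_comm]; exact D.hA1 j
theorem hA2' (j : Fin 4) : inner ℝ (D.Ah j) D.E2 = 0 := by rw [real_inner_comm]; exact D.hA2 j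
theorem hC1' (j : Fin 4) : inner ℝ (D.Ch j) D.E1 = 0 := by rw [real_inner_comm]; exact D.hC1 j
theorem hC2' (j : Fin 4) : inner ℝ (D.Ch j) D.E2 = 0 := by rw [real_inner_comm]; exact D.hC2 j

theorem b_skew (j : Fin 4) (x y : E 6) : inner ℝ (D.b j x) y = - inner ℝ x (D.b j y) := by
  simp only [b, LinearMap.add_apply, LinearMap.smul_apply, inner_add_left, inner_add_right,
    inner_smul_left, inner_smul_right, wd_skew, RCLike.conj_to_real]
  ring

theorem b_inner (i j : Fin 4) (z : E 6) : inner ℝ (D.b i z) (D.b j z) =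
    inner ℝ D.E1 z ^ 2 * inner ℝ (D.Ah i) (D.Ah j)
      + inner ℝ D.E1 z * inner ℝ D.E2 z * (inner ℝ (D.Ah i) (D.Ch j) + inner ℝ (D.Ch i) (D.Ah j))
      + inner ℝ D.E2 z ^ 2 * inner ℝ (D.Ch i) (D.Ch j)
      + (inner ℝ (D.Ah i) z + inner ℝ D.E2 z * D.w i) * (inner ℝ (D.Ah j) z + inner ℝ D.E2 z * D.w j)
      + (inner ℝ (D.Ch i) z - inner ℝ D.E1 z * D.w i) * (inner ℝ (D.Ch j) z - inner ℝ D.E1 z * D.w j)
      := by
  rw [b_apply, b_apply]
  simp only [inner_add_left, inner_add_right, inner_sub_left, inner_sub_right, inner_smul_left,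
    inner_smul_right, RCLike.conj_to_real, D.h11, D.h22, D.h12, D.h21, D.hA1, D.hA2, D.hC1, D.hC2,
    D.hA1', D.hA2', D.hC1', D.hC2']
  ring

theorem b_hs (i j : Fin 4) : hs (D.b i) (D.b j) = if i = j then 2 else 0 := by
  have lin : ∀ (p q r u v t : E 6 →ₗ[ℝ] E 6) (a c : ℝ),
      hs (p + q + a • r) (u + v + c • t) = hs p u + hs p v + c * hs p t + hs q u + hs q v
        + c * hs q t + a * hs r u + a * hs r v + a * c * hs r t := by
    intro p q r u v t a c
    simp only [hs, Finset.mul_sum, ← Finset.sum_add_distrib]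
    refine Finset.sum_congr rfl fun k _ => ?_
    simp only [LinearMap.add_apply, LinearMap.smul_apply, inner_add_left, inner_add_right,
      inner_smul_left, inner_smul_right, RCLike.conj_to_real]
    ring
  rw [b, b, lin]
  simp only [hs_wd, D.h11, D.h22, D.h12, D.h21, D.hA1, D.hA2, D.hC1, D.hC2,
    D.hA1', D.hA2', D.hC1', D.hC2']
  have := D.on i j
  split_ifs with h
  · rw [if_pos h] at this; linarith
  · rw [if_neg h] at this; linarith

/-- the forms vanish on the complement of the plane -/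
theorem b_perp (j : Fin 4) (y z : E 6) (h1 : inner ℝ D.E1 y = 0) (h2 : inner ℝ D.E2 y = 0)
    (h3 : inner ℝ D.E1 z = 0) (h4 : inner ℝ D.E2 z = 0) : inner ℝ (D.b j y) z = 0 := by
  rw [b_apply, h1, h2]
  simp only [inner_add_left, inner_sub_left, inner_smul_left, RCLike.conj_to_real, h3, h4]
  ring

theorem b_E1 (j : Fin 4) : D.b j D.E1 = D.Ah j + D.w j • D.E2 := by
  rw [b_apply, D.h11, D.h21, D.hA1', D.hC1']
  module

theorem b_E2 (j : Fin 4) : D.b j D.E2 = D.Ch j - D.w j • D.E1 := by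
  rw [b_apply, D.h22, D.h12, D.hA2', D.hC2']
  module

/-- the first value of the determinant -/
theorem Gr_E2 : Gr D.b D.E2 = 1 - Matrix.of fun i j => inner ℝ (D.Ah i) (D.Ah j) := by
  ext i j
  rw [Gr, Matrix.of_apply, b_inner, D.h22, D.h12, D.hA2', D.hC2', D.hA2', D.hC2',
    Matrix.sub_apply, Matrix.of_apply, Matrix.one_apply]
  have := D.on i j
  rw [← this]; ring

end PD

/-- the determinant is homogeneous and has a maximum -/
theorem exists_maxdet {N D : ℕ} (b : Fin N → (E (D + 1) →ₗ[ℝ] E (D + 1))) :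
    ∃ v0 : E (D + 1), ‖v0‖ = 1 ∧ ∀ v, (Gr b v).det ≤ (Gr b v0).det * (‖v‖ ^ 2) ^ N := by
  have hb : ∀ j, Continuous (b j) := fun j => LinearMap.continuous_of_finiteDimensional _
  have hcont : Continuous fun v : E (D + 1) => (Gr b v).det := by
    refine Continuous.matrix_det ?_
    refine continuous_matrix fun i j => ?_
    show Continuous fun v => inner ℝ (b i v) (b j v)
    exact (hb i).inner (hb j)
  have hne : (sphere (0 : E (D + 1)) 1).Nonempty :=
    ⟨EuclideanSpace.single 0 1, by simp⟩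
  obtain ⟨v0, hv0, hmax⟩ := (isCompact_sphere (0 : E (D + 1)) 1).exists_isMaxOn hne hcont.continuousOn
  have hn0 : ‖v0‖ = 1 := by simpa using hv0
  have hom : ∀ (r : ℝ) (v : E (D + 1)), (Gr b (r • v)).det = (r ^ 2) ^ N * (Gr b v).det := by
    intro r v
    have : Gr b (r • v) = (r ^ 2) • Gr b v := by
      ext i j
      simp only [Gr, Matrix.of_apply, map_smul, inner_smul_left, inner_smul_right,
        RCLike.conj_to_real, Matrix.smul_apply, smul_eq_mul]
      ring
    rw [this, Matrix.det_smul, Fintype.card_fin]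
  refine ⟨v0, hn0, fun v => ?_⟩
  by_cases hv : v = 0
  · subst hv
    have h0 := hom 0 v0
    rw [zero_smul] at h0
    rw [h0]
    simp [mul_comm]
  have hnv : ‖v‖ ≠ 0 := by simpa using hv
  have h1 : (‖v‖)⁻¹ • v ∈ sphere (0 : E (D + 1)) 1 := by
    simp [norm_smul, hnv]
  have h2 : (Gr b ((‖v‖)⁻¹ • v)).det ≤ (Gr b v0).det := hmax h1
  rw [hom, inv_pow, inv_pow] at h2
  have h4 : 0 < (‖v‖ ^ 2) ^ N := by positivity
  rw [inv_mul_le_iff₀ h4] at h2
  linarith

/-- frames of `E (k+1)` preserve the measure -/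
theorem frame_mp {k : ℕ} (c : E (k + 1)) (hc : ‖c‖ = 1) (ι : E k →ₗᵢ[ℝ] E (k + 1))
    (h0 : ∀ y, inner ℝ c (ι y) = 0) :
    MeasurePreserving (fun p : ℝ × E k => p.1 • c + ι p.2) (volume.prod volume) volume := by
  obtain ⟨ι0, k0, k1, km⟩ := D0 c hc
  have hex : ∀ y, ι0 (ad ι0 (ι y)) = ι y := by
    intro y
    have := dec hc k0 k1 (ι y)
    rw [h0, zero_smul, zero_add] at this
    exact this.symm
  let U : E k →ₗᵢ[ℝ] E k :=
    { toLinearMap := ad ι0 ∘ₗ ι.toLinearMap
      norm_map' := by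
        intro y
        have h1 := hex y
        have h2 : ‖ι0 (ad ι0 (ι y))‖ = ‖ι y‖ := by rw [h1]
        rw [LinearIsometry.norm_map, LinearIsometry.norm_map] at h2
        exact h2 }
  let Ue : E k ≃ₗᵢ[ℝ] E k := U.toLinearIsometryEquiv rfl
  have hU : MeasurePreserving (Prod.map id Ue : ℝ × E k → ℝ × E k) (volume.prod volume)
      (volume.prod volume) :=
    (MeasurePreserving.id volume).prod (Ue.measurePreserving)
  have h := km.comp hU
  have e : ((fun p : ℝ × E k => p.1 • c + ι0 p.2) ∘ (Prod.map id Ue : ℝ × E k → ℝ × E k))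
      = fun p : ℝ × E k => p.1 • c + ι p.2 := by
    funext p
    simp only [Function.comp_apply, Prod.map_fst, Prod.map_snd, id]
    congr 1
    exact hex p.2
  rwa [e] at h

/-- the isometry of an orthonormal family -/
theorem exists_iso {k n : ℕ} (u : Fin k → E n) (hu : Orthonormal ℝ u) :
    ∃ ι : E k →ₗᵢ[ℝ] E n, (∀ a, ι (EuclideanSpace.single a 1) = u a) ∧
      ∀ w : E k, ι w = ∑ a, w a • u a := by
  let b := (EuclideanSpace.basisFun (Fin k) ℝ).toBasis
  let f : E k →ₗ[ℝ] E n := b.constr ℝ u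
  have hf : ∀ a, f (EuclideanSpace.single a 1) = u a := by
    intro a
    have := b.constr_basis ℝ u a
    simp [b, f]
  have hfb : (fun a => f (b a)) = u := by
    funext a
    simp only [f, Module.Basis.constr_basis]
  let ι := f.isometryOfOrthonormal (v := b) (by
    simp [b]) (by
    show Orthonormal ℝ (fun a => f (b a))
    rw [hfb]; exact hu)
  refine ⟨ι, hf, fun w => ?_⟩
  have hw : w = ∑ a, w a • EuclideanSpace.single a (1 : ℝ) := by
    ext i
    simp [Finset.sum_apply, Pi.single_apply]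
  have : ι w = f w := rfl
  rw [this]
  conv_lhs => rw [hw]
  rw [map_sum]
  refine Finset.sum_congr rfl fun a _ => ?_
  rw [map_smul, hf]

end Pool.Agent.W451.N4
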