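import Mathlib
import Pool.Agent.W451.N4.B

/-!
# N4-NF: the family of an adapted plane
-/
set_option autoImplicit false
open Matrix MeasureTheory Set Metric Filter Topology
open scoped ENNReal Nat

namespace Pool.Agent.W451.N4
open Pool.Agent.Helper82.OS Pool.Agent.W546.ST Pool.Agent.W546.N4 Pool.Agent.W367.ST

theorem inner_dot {m : ℕ} (u v : E m) : inner ℝ u v = u.ofLp ⬝ᵥ v.ofLp := by
  rw [EuclideanSpace.inner_eq_star_dotProduct]
  simp only [star_trivial]
  exact dotProduct_comm _ _

theorem int_frame' {k : ℕ} {c : E (k + 1)} {ι : E k →ₗᵢ[ℝ] E (k + 1)}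
    (hm : MeasurePreserving (fun p : ℝ × E k => p.1 • c + ι p.2) (volume.prod volume) volume)
    (f : E (k + 1) → ℝ≥0∞) (hf : Measurable f) :
    ∫⁻ v, f v = ∫⁻ t : ℝ, ∫⁻ w : E k, f (t • c + ι w) := by
  rw [← hm.lintegral_comp hf]
  have h1 : Measurable fun p : ℝ × E k => f (p.1 • c + ι p.2) := by
    refine hf.comp ?_
    have : Continuous fun p : ℝ × E k => p.1 • c + ι p.2 := by
      have := ι.continuous
      fun_prop
    exact this.measurable
  rw [lintegral_prod _ h1.aemeasurable]

theorem exists_PD (P : PA 3) : ∃ D : PD, (∀ j, D.w j = if j = 0 then P.s else 0) ∧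
    (∀ i j, inner ℝ (D.Ah i) (D.Ah j) = P.A i ⬝ᵥ P.A j) ∧
    (∀ i j, inner ℝ (D.Ah i) (D.Ch j) = P.A i ⬝ᵥ P.C j) ∧
    P.GJ = ∫⁻ v : E 6, ENNReal.ofReal (Real.sqrt (Gr D.b v).det * Real.exp (-(‖v‖ ^ 2 / 2))) := by
  obtain ⟨ι, h0, h1, hm⟩ := D0 (EuclideanSpace.single (0 : Fin 6) (1:ℝ)) (by simp)
  obtain ⟨ι', k0, k1, km⟩ := D0 (EuclideanSpace.single (0 : Fin 5) (1:ℝ)) (by simp)
  set c : E 6 := EuclideanSpace.single (0 : Fin 6) (1:ℝ) with hc
  set c' : E 5 := EuclideanSpace.single (0 : Fin 5) (1:ℝ) with hc'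
  have hcn : ‖c‖ = 1 := by simp [hc]
  have hcn' : ‖c'‖ = 1 := by simp [hc']
  have hcc : inner ℝ c c = 1 := by rw [real_inner_self_eq_norm_sq, hcn]; norm_num
  have hcc' : inner ℝ c' c' = 1 := by rw [real_inner_self_eq_norm_sq, hcn']; norm_num
  have h0' : ∀ y, inner ℝ (ι y) c = 0 := fun y => by rw [real_inner_comm]; exact h0 y
  have k0' : ∀ y, inner ℝ (ι' y) c' = 0 := fun y => by rw [real_inner_comm]; exact k0 y
  let D : PD :=
    { E1 := c
      E2 := ι c'
      Ah := fun j => ι (ι' (WithLp.toLp 2 (P.A j)))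
      Ch := fun j => ι (ι' (WithLp.toLp 2 (P.C j)))
      w := fun j => if j = 0 then P.s else 0
      h11 := hcc
      h22 := by rw [LinearIsometry.inner_map_map]; exact hcc'
      h12 := h0 _
      hA1 := fun j => h0 _
      hA2 := fun j => by rw [LinearIsometry.inner_map_map]; exact k0 _
      hC1 := fun j => h0 _
      hC2 := fun j => by rw [LinearIsometry.inner_map_map]; exact k0 _
      on := by
        intro i j
        simp only [LinearIsometry.inner_map_map, inner_dot]
        have h := congrFun (congrFun P.on i) j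
        rw [Matrix.add_apply, Matrix.add_apply, Matrix.mul_apply', Matrix.mul_apply',
          Matrix.one_apply, Matrix.single_apply] at h
        rw [← h]
        have e1 : (fun k => (P.A)ᵀ k j) = P.A j := rfl
        have e2 : (fun k => (P.C)ᵀ k j) = P.C j := rfl
        rw [e1, e2]
        congr 1
        by_cases hi : i = 0
        · by_cases hj : j = 0
          · simp [hi, hj, sq]
          · have : ¬ (0 = j) := fun h => hj h.symm
            simp [hj, this]
        · have : ¬ (0 = i) := fun h => hi h.symm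
          simp [hi, this] }
  refine ⟨D, fun j => rfl, ?_, ?_, ?_⟩
  · intro i j
    simp only [D, LinearIsometry.inner_map_map, inner_dot]
  · intro i j
    simp only [D, LinearIsometry.inner_map_map, inner_dot]
  · rw [int_frame' hm _ (meas_Gr _), PA.GJ]
    refine lintegral_congr fun y => ?_
    have hmeas : Measurable fun w : E 5 =>
        ENNReal.ofReal (Real.sqrt (Gr D.b (y • c + ι w)).det * Real.exp (-(‖y • c + ι w‖ ^ 2 / 2))) := by
      have h2 := meas_Gr D.b
      have h3 : Measurable fun w : E 5 => y • c + ι w := by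
        have : Continuous fun w : E 5 => y • c + ι w := by
          have := ι.continuous
          fun_prop
        exact this.measurable
      exact h2.comp h3
    rw [int_frame' km _ hmeas]
    refine lintegral_congr fun t => lintegral_congr fun f => ?_
    have hn : ‖y • c + ι (t • c' + ι' f)‖ ^ 2 = y ^ 2 + (t ^ 2 + ‖f‖ ^ 2) := by
      rw [nsq hcn h0, nsq hcn' k0]
    have hG : Gr D.b (y • c + ι (t • c' + ι' f)) =
        P.M y t * (P.M y t)ᵀ + vecMulVec (P.va t f.ofLp) (P.va t f.ofLp)
          + vecMulVec (P.vb y f.ofLp) (P.vb y f.ofLp) := by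
      ext i j
      have i1 : inner ℝ D.E1 (y • c + ι (t • c' + ι' f)) = y := by
        simp only [D, inner_add_right, inner_smul_right, hcc, h0]; ring
      have i2 : inner ℝ D.E2 (y • c + ι (t • c' + ι' f)) = t := by
        simp only [D, inner_add_right, inner_smul_right, LinearIsometry.inner_map_map, h0', hcc', k0]
        ring
      have i3 : ∀ j, inner ℝ (D.Ah j) (y • c + ι (t • c' + ι' f)) = P.A j ⬝ᵥ f.ofLp := by
        intro j
        simp only [D, inner_add_right, inner_smul_right, LinearIsometry.inner_map_map, h0', k0',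
          inner_dot]
        ring
      have i4 : ∀ j, inner ℝ (D.Ch j) (y • c + ι (t • c' + ι' f)) = P.C j ⬝ᵥ f.ofLp := by
        intro j
        simp only [D, inner_add_right, inner_smul_right, LinearIsometry.inner_map_map, h0', k0',
          inner_dot]
        ring
      rw [Gr, Matrix.of_apply, D.b_inner, i1, i2, i3, i4, i3, i4]
      simp only [D, LinearIsometry.inner_map_map, inner_dot]
      rw [Matrix.add_apply, Matrix.add_apply, vecMulVec_apply, vecMulVec_apply, Matrix.mul_apply']
      have e1 : ∀ i, P.va t f.ofLp i = P.A i ⬝ᵥ f.ofLp + t * (if i = 0 then P.s else 0) := by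
        intro i
        simp only [PA.va, Pi.add_apply, Pi.smul_apply, Pi.single_apply, smul_eq_mul,
          Matrix.mulVec]
        split_ifs <;> ring
      have e2 : ∀ i, P.vb y f.ofLp i = P.C i ⬝ᵥ f.ofLp - y * (if i = 0 then P.s else 0) := by
        intro i
        simp only [PA.vb, Pi.sub_apply, Pi.smul_apply, Pi.single_apply, smul_eq_mul,
          Matrix.mulVec]
        split_ifs <;> ring
      have e3 : (P.M y t) i ⬝ᵥ (fun k => (P.M y t)ᵀ k j) =
          y ^ 2 * (P.A i ⬝ᵥ P.A j) + y * t * (P.A i ⬝ᵥ P.C j + P.C i ⬝ᵥ P.A j)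
            + t ^ 2 * (P.C i ⬝ᵥ P.C j) := by
        have f1 : (fun k => (P.M y t)ᵀ k j) = y • P.A j + t • P.C j := by
          funext k; simp [PA.M]
        have f2 : (P.M y t) i = y • P.A i + t • P.C i := by
          funext k; simp [PA.M]
        rw [f1, f2]
        simp only [add_dotProduct, dotProduct_add, smul_dotProduct, dotProduct_smul, smul_eq_mul]
        ring
      rw [e1, e1, e2, e2, e3]
    rw [hn, hG, PA.J2]
    congr 2
    rw [gt, gt, gw, ← Real.exp_add, ← Real.exp_add]
    congr 1
    ring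

end Pool.Agent.W451.N4
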