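import Mathlib
import Pool.Agent.W451.N4.C

/-!
# N4-NF: the frame at a maximum of the determinant
-/
set_option autoImplicit false
open Matrix MeasureTheory Set Metric Filter Topology
open scoped ENNReal Nat

namespace Pool.Agent.W451.N4
open Pool.Agent.Helper82.OS Pool.Agent.W546.ST Pool.Agent.W546.N4 Pool.Agent.W367.ST

theorem exists_orth {n : ℕ} (w0 : Fin (n + 1) → ℝ) :
    ∃ (O : Matrix (Fin (n + 1)) (Fin (n + 1)) ℝ) (s : ℝ), O * Oᵀ = 1 ∧
      O *ᵥ w0 = s • (Pi.single 0 1 : Fin (n + 1) → ℝ) := by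
  classical
  by_cases h0 : w0 = 0
  · refine ⟨1, 0, by simp, ?_⟩
    rw [h0]
    simp
  set X : E (n + 1) := WithLp.toLp 2 w0 with hX
  have hX0 : X ≠ 0 := by
    intro h
    apply h0
    have := congrArg WithLp.ofLp h
    simpa [hX] using this
  have hXn : ‖X‖ ≠ 0 := norm_ne_zero_iff.2 hX0
  have hc : ‖(‖X‖⁻¹ • X)‖ = 1 := by
    rw [norm_smul, norm_inv, norm_norm, inv_mul_cancel₀ hXn]
  have hfr : Module.finrank ℝ (E (n + 1)) = Fintype.card (Fin (n + 1)) := by simp
  have horth : Orthonormal ℝ ((({(0 : Fin (n + 1))} : Set (Fin (n + 1)))).domRestrict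
      (fun _ : Fin (n + 1) => ‖X‖⁻¹ • X)) := by
    refine ⟨fun i => hc, ?_⟩
    intro i j hij
    exact absurd (Subsingleton.elim i j) hij
  obtain ⟨b, hb⟩ := horth.exists_orthonormalBasis_extension_of_card_eq hfr
  have hb0 : b 0 = ‖X‖⁻¹ • X := hb 0 rfl
  have hXb : X = ‖X‖ • b 0 := by
    rw [hb0, smul_smul, mul_inv_cancel₀ hXn, one_smul]
  have hin : ∀ u v : E (n + 1), inner ℝ u v = u.ofLp ⬝ᵥ v.ofLp := inner_dot
  refine ⟨Matrix.of fun i => (b i).ofLp, ‖X‖, ?_, ?_⟩
  · ext i j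
    rw [Matrix.mul_apply']
    have h1 : (Matrix.of fun i => (b i).ofLp) i ⬝ᵥ
        (fun k => (Matrix.of fun i => (b i).ofLp)ᵀ k j) = inner ℝ (b i) (b j) := by
      rw [hin]
      rfl
    rw [h1, Matrix.one_apply]
    exact orthonormal_iff_ite.1 b.orthonormal i j
  · funext i
    have h1 : ((Matrix.of fun i => (b i).ofLp) *ᵥ w0) i = inner ℝ (b i) X := by
      rw [hin]
      rfl
    rw [h1, hXb, real_inner_smul_right, orthonormal_iff_ite.1 b.orthonormal i 0, norm_smul,
      norm_norm, b.norm_eq_one, mul_one]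
    simp only [Pi.smul_apply, Pi.single_apply, smul_eq_mul]

/-- orthonormal basis from a unit vector and an orthonormal family of its complement -/
theorem onb_cons {k : ℕ} {c : E (k + 1)} (hc : ‖c‖ = 1) {u : Fin k → E (k + 1)}
    (hu : Orthonormal ℝ u) (h0 : ∀ a, inner ℝ c (u a) = 0) :
    ∃ b : OrthonormalBasis (Fin (k + 1)) ℝ (E (k + 1)), ⇑b = Fin.cons c u := by
  refine onb_of _ ?_
  constructor
  · intro i
    refine Fin.cases ?_ (fun j => ?_) i
    · simpa using hc
    · simpa using hu.1 j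
  · intro i j hij
    refine Fin.cases ?_ (fun i => ?_) i hij
    · refine Fin.cases ?_ (fun j => ?_) j
      · intro h; exact absurd rfl h
      · intro _; simpa using h0 _
    · refine Fin.cases ?_ (fun j => ?_) j
      · intro _
        rw [real_inner_comm]; simpa using h0 _
      · intro h
        have hne : i ≠ j := fun e => h (by rw [e])
        simpa using hu.2 hne

theorem exists_fr (b : Fin 4 → (E 6 →ₗ[ℝ] E 6))
    (hsk : ∀ j x y, inner ℝ (b j x) y = - inner ℝ x (b j y)) (ν : E 6) (hν : ‖ν‖ = 1)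
    (hJ : 0 < (Gr b ν).det) (x : E 6) (hx : ‖x‖ = 1) (hxν : inner ℝ ν x = 0) :
    ∃ (U : Matrix (Fin 4) (Fin 4) ℝ) (u : Fin 5 → E 6) (x0 xe : ℝ), Orthonormal ℝ u ∧
      (∀ a, inner ℝ ν (u a) = 0) ∧ (∀ j : Fin 4, cb U b j ν = u j.castSucc) ∧
      Uᵀ * Gr b ν * U = 1 ∧ x = x0 • u 0 + xe • u 4 ∧ x0 ^ 2 + xe ^ 2 = 1 := by
  have hH : (Gr b ν).IsHermitian := by
    ext i j
    simp [Gr, Matrix.conjTranspose_apply, real_inner_comm]
  obtain ⟨U0, d, hU1, hU2, hUd⟩ := exists_diag0 _ hH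
  have hd0 : ∀ i, 0 ≤ d i := by
    intro i
    have h1 : d i = Gr (cb U0 b) ν i i := by
      rw [Gr_cb, hUd, Matrix.diagonal_apply_eq]
    rw [h1, Gr, Matrix.of_apply]
    exact real_inner_self_nonneg
  have hdet : ∏ i, d i = (Gr b ν).det := by
    have e1 : (U0ᵀ * Gr b ν * U0).det = (Gr b ν).det := by
      rw [Matrix.det_mul, Matrix.det_mul]
      have : U0ᵀ.det * U0.det = 1 := by rw [← Matrix.det_mul, hU1, Matrix.det_one]
      calc U0ᵀ.det * (Gr b ν).det * U0.det = (U0ᵀ.det * U0.det) * (Gr b ν).det := by ring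
        _ = _ := by rw [this, one_mul]
    rw [← e1, hUd, Matrix.det_diagonal]
  have hdp : ∀ i, 0 < d i := by
    intro i
    refine lt_of_le_of_ne (hd0 i) (fun h => ?_)
    have : ∏ i, d i = 0 := Finset.prod_eq_zero (Finset.mem_univ i) h.symm
    rw [this] at hdet
    linarith
  set U1 := U0 * Matrix.diagonal (fun i => (Real.sqrt (d i))⁻¹) with hU1def
  have hG1 : U1ᵀ * Gr b ν * U1 = 1 := by
    have e : U1ᵀ * Gr b ν * U1 = Matrix.diagonal (fun i => (Real.sqrt (d i))⁻¹) *
        (U0ᵀ * Gr b ν * U0) * Matrix.diagonal (fun i => (Real.sqrt (d i))⁻¹) := by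
      rw [hU1def, Matrix.transpose_mul, Matrix.diagonal_transpose]
      simp only [Matrix.mul_assoc]
    rw [e, hUd, Matrix.diagonal_mul_diagonal, Matrix.diagonal_mul_diagonal, ← Matrix.diagonal_one]
    congr 1
    funext i
    have h1 := Real.sq_sqrt (hd0 i)
    have h2 : Real.sqrt (d i) ≠ 0 := (Real.sqrt_pos.2 (hdp i)).ne'
    field_simp
    linarith
  obtain ⟨O, s, hO, hOw⟩ := exists_orth (fun i : Fin 4 => inner ℝ x (cb U1 b i ν))
  set U := U1 * Oᵀ with hUdef
  have hG : Uᵀ * Gr b ν * U = 1 := by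
    have e : Uᵀ * Gr b ν * U = O * (U1ᵀ * Gr b ν * U1) * Oᵀ := by
      rw [hUdef, Matrix.transpose_mul, Matrix.transpose_transpose]
      simp only [Matrix.mul_assoc]
    rw [e, hG1, Matrix.mul_one, hO]
  have hq : ∀ i j, inner ℝ (cb U b i ν) (cb U b j ν) = if i = j then (1 : ℝ) else 0 := by
    intro i j
    have h1 : inner ℝ (cb U b i ν) (cb U b j ν) = Gr (cb U b) ν i j := rfl
    rw [h1, Gr_cb, hG, Matrix.one_apply]
  have hqν : ∀ i, inner ℝ ν (cb U b i ν) = 0 := by
    intro i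
    have h1 := cb_skew U b hsk i ν ν
    rw [real_inner_comm] at h1
    linarith
  have hxq : ∀ i, inner ℝ x (cb U b i ν) = s * (if i = 0 then 1 else 0) := by
    intro i
    have h1 : cb U b i ν = ∑ l, O i l • cb U1 b l ν := by
      rw [cb_apply]
      simp only [cb_apply, Finset.smul_sum, smul_smul]
      rw [Finset.sum_comm]
      refine Finset.sum_congr rfl fun k _ => ?_
      rw [← Finset.sum_smul]
      congr 1
      rw [hUdef, Matrix.mul_apply]
      refine Finset.sum_congr rfl fun l _ => ?_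
      rw [Matrix.transpose_apply]; ring
    rw [h1, inner_sum]
    have h2 := congrFun hOw i
    simp only [Matrix.mulVec, dotProduct, Pi.smul_apply, Pi.single_apply, smul_eq_mul] at h2
    rw [← h2]
    refine Finset.sum_congr rfl fun l _ => ?_
    rw [inner_smul_right]
  obtain ⟨e, he1, hep⟩ := exists_perp (show 4 + 1 < 6 by norm_num)
    (Fin.cons ν (fun i => cb U b i ν) : Fin 5 → E 6)
  have heν : inner ℝ ν e = 0 := by simpa using hep 0
  have heq : ∀ i : Fin 4, inner ℝ (cb U b i ν) e = 0 := fun i => by simpa using hep i.succ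
  let u : Fin 5 → E 6 := Fin.snoc (fun i => cb U b i ν) e
  have hu1 : ∀ i : Fin 4, u i.castSucc = cb U b i ν := fun i => Fin.snoc_castSucc _ _ _
  have hu2 : u (Fin.last 4) = e := Fin.snoc_last _ _
  have hu : Orthonormal ℝ u := by
    rw [orthonormal_iff_ite]
    intro i j
    refine Fin.lastCases ?_ (fun i => ?_) i
    · refine Fin.lastCases ?_ (fun j => ?_) j
      · rw [hu2, real_inner_self_eq_norm_sq, he1, if_pos rfl]; norm_num
      · rw [hu1, hu2, real_inner_comm, heq, if_neg (Fin.castSucc_lt_last j).ne']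
    · refine Fin.lastCases ?_ (fun j => ?_) j
      · rw [hu1, hu2, heq, if_neg (Fin.castSucc_lt_last i).ne]
      · rw [hu1, hu1, hq]
        simp only [Fin.castSucc_inj]
  have hνu : ∀ a, inner ℝ ν (u a) = 0 := by
    intro a
    refine Fin.lastCases ?_ (fun i => ?_) a
    · rw [hu2]; exact heν
    · rw [hu1]; exact hqν i
  obtain ⟨B, hB⟩ := onb_cons hν hu hνu
  have hxx : x = s • u 0 + inner ℝ e x • u 4 := by
    have h1 := B.sum_repr' x
    rw [hB, Fin.sum_univ_succ, Fin.sum_univ_castSucc] at h1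
    simp only [Fin.cons_zero, Fin.cons_succ, hxν, zero_smul, zero_add, hu1, hu2] at h1
    have h3 : ∀ i, inner ℝ (cb U b i ν) x = s * (if i = 0 then 1 else 0) := fun i => by
      rw [real_inner_comm]; exact hxq i
    simp only [h3] at h1
    rw [Finset.sum_eq_single (0 : Fin 4)] at h1
    · rw [if_pos rfl, mul_one] at h1
      exact h1.symm
    · intro i _ hi
      rw [if_neg hi, mul_zero, zero_smul]
    · intro h; exact absurd (Finset.mem_univ _) h
  refine ⟨U, u, s, inner ℝ e x, hu, hνu, fun j => (hu1 j).symm, hG, hxx, ?_⟩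
  have h1 : inner ℝ x x = 1 := by rw [real_inner_self_eq_norm_sq, hx]; norm_num
  have h00 : inner ℝ (u 0) (u 0) = 1 := by rw [real_inner_self_eq_norm_sq, hu.1]; norm_num
  have h44 : inner ℝ (u 4) (u 4) = 1 := by rw [real_inner_self_eq_norm_sq, hu.1]; norm_num
  have h04 : inner ℝ (u 0) (u 4) = 0 := hu.2 (by decide)
  have h40 : inner ℝ (u 4) (u 0) = 0 := hu.2 (by decide)
  have h5 : inner ℝ x x = inner ℝ (s • u 0 + inner ℝ e x • u 4) (s • u 0 + inner ℝ e x • u 4) := by
    rw [← hxx]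
  rw [h5] at h1
  simp only [inner_add_left, inner_add_right, inner_smul_left, inner_smul_right,
    RCLike.conj_to_real, h00, h44, h04, h40] at h1
  linarith

end Pool.Agent.W451.N4
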