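import Mathlib
import Pool.Agent.W451.N4.D

/-!
# N4-NF: properties of the frame
-/
set_option autoImplicit false
open Matrix MeasureTheory Set Metric Filter Topology
open scoped ENNReal Nat

namespace Pool.Agent.W451.N4
open Pool.Agent.Helper82.OS Pool.Agent.W546.ST Pool.Agent.W546.N4 Pool.Agent.W367.ST

/-- the frame at a maximum -/
structure FR where
  P : PD
  ν : E 6
  hν : ‖ν‖ = 1
  hmax : ∀ v, (Gr P.b v).det ≤ (Gr P.b ν).det * (‖v‖ ^ 2) ^ 4
  U : Matrix (Fin 4) (Fin 4) ℝ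
  u : Fin 5 → E 6
  x0 : ℝ
  xe : ℝ
  p1 : ℝ
  p2 : ℝ
  hu : Orthonormal ℝ u
  hνu : ∀ a, inner ℝ ν (u a) = 0
  hq : ∀ j : Fin 4, cb U P.b j ν = u j.castSucc
  hU : Uᵀ * Gr P.b ν * U = 1
  hx : p1 • P.E1 + p2 • P.E2 = x0 • u 0 + xe • u 4
  hx1 : x0 ^ 2 + xe ^ 2 = 1
  hp1 : p1 ^ 2 + p2 ^ 2 = 1

namespace FR
variable (F : FR)

noncomputable def bp (j : Fin 4) : E 6 →ₗ[ℝ] E 6 := cb F.U F.P.b j

theorem bp_skew (j : Fin 4) (x y : E 6) : inner ℝ (F.bp j x) y = - inner ℝ x (F.bp j y) :=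
  cb_skew F.U F.P.b F.P.b_skew j x y

theorem bp_ν (j : Fin 4) : F.bp j F.ν = F.u j.castSucc := F.hq j

theorem uu_inner (a b : Fin 5) : inner ℝ (F.u a) (F.u b) = if a = b then (1 : ℝ) else 0 :=
  orthonormal_iff_ite.1 F.hu a b

theorem νν : inner ℝ F.ν F.ν = 1 := by rw [real_inner_self_eq_norm_sq, F.hν]; norm_num

theorem huν (a : Fin 5) : inner ℝ (F.u a) F.ν = 0 := by rw [real_inner_comm]; exact F.hνu a

theorem pars (z z' : E 6) : inner ℝ z z' = inner ℝ F.ν z * inner ℝ F.ν z'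
    + ∑ a, inner ℝ (F.u a) z * inner ℝ (F.u a) z' := by
  obtain ⟨B, hB⟩ := onb_cons F.hν F.hu F.hνu
  rw [← B.sum_inner_mul_inner z z', hB, Fin.sum_univ_succ]
  simp only [Fin.cons_zero, Fin.cons_succ]
  rw [real_inner_comm F.ν z]
  congr 1
  refine Finset.sum_congr rfl fun a _ => ?_
  rw [real_inner_comm (F.u a) z]

theorem dec (z : E 6) : z = inner ℝ F.ν z • F.ν + ∑ a, inner ℝ (F.u a) z • F.u a := by
  obtain ⟨B, hB⟩ := onb_cons F.hν F.hu F.hνu
  have h1 := B.sum_repr' z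
  rw [hB, Fin.sum_univ_succ] at h1
  simp only [Fin.cons_zero, Fin.cons_succ] at h1
  exact h1.symm

theorem hs_eq (b c : E 6 →ₗ[ℝ] E 6) : hs b c = inner ℝ (b F.ν) (c F.ν)
    + ∑ a, inner ℝ (b (F.u a)) (c (F.u a)) := by
  obtain ⟨B, hB⟩ := onb_cons F.hν F.hu F.hνu
  rw [hs_onb b c B, hB, Fin.sum_univ_succ]
  simp only [Fin.cons_zero, Fin.cons_succ]

/-- the matrices -/
noncomputable def Ga (j : Fin 4) (a b : Fin 5) : ℝ := inner ℝ (F.u a) (F.bp j (F.u b))

theorem Ga_skew (j : Fin 4) (a b : Fin 5) : F.Ga j a b = - F.Ga j b a := by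
  rw [Ga, Ga, real_inner_comm, bp_skew]

theorem Ga_self (j : Fin 4) (a : Fin 5) : F.Ga j a a = 0 := by
  have := F.Ga_skew j a a; linarith

theorem ν_bp (i : Fin 4) (z : E 6) : inner ℝ F.ν (F.bp i z) = - inner ℝ (F.u i.castSucc) z := by
  rw [← F.bp_ν, bp_skew]; ring

noncomputable def Dd : ℝ := (1 / 2) * ∑ j, ∑ a, ∑ b, F.Ga j a b ^ 2

/-- matrix with `X Xᵀ = N` -/
noncomputable def X : Matrix (Fin 4) (Fin 5 × Fin 5) ℝ :=
  Matrix.of fun i p => F.Ga i p.1 p.2 / Real.sqrt 2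

theorem X_mul (i j : Fin 4) : (F.X * F.Xᵀ) i j = (1 / 2) * ∑ a, ∑ b, F.Ga i a b * F.Ga j a b := by
  rw [Matrix.mul_apply, Fintype.sum_prod_type, Finset.mul_sum]
  refine Finset.sum_congr rfl fun a _ => ?_
  rw [Finset.mul_sum]
  refine Finset.sum_congr rfl fun b _ => ?_
  simp only [X, Matrix.of_apply, Matrix.transpose_apply]
  have h2 : Real.sqrt 2 * Real.sqrt 2 = 2 := Real.mul_self_sqrt (by norm_num)
  rw [div_mul_div_comm, h2]; ring

theorem X_trace : (F.X * F.Xᵀ).trace = F.Dd := by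
  rw [Matrix.trace, Dd, Finset.mul_sum]
  refine Finset.sum_congr rfl fun j _ => ?_
  rw [Matrix.diag_apply, X_mul]
  congr 1
  refine Finset.sum_congr rfl fun a _ => Finset.sum_congr rfl fun b _ => ?_
  ring

theorem UtU : F.Uᵀ * F.U = 1 + F.X * F.Xᵀ := by
  ext i j
  have h1 : hs (F.bp i) (F.bp j) = 2 * (F.Uᵀ * F.U) i j := by
    have h1 : hs (cb F.U F.P.b i) (cb F.U F.P.b j) =
        ∑ k, ∑ l, F.U k i * F.U l j * hs (F.P.b k) (F.P.b l) := by
      simp only [hs]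
      calc _ = ∑ a : Fin 6, ∑ k, ∑ l, F.U k i * F.U l j *
              inner ℝ (F.P.b k (EuclideanSpace.single a 1)) (F.P.b l (EuclideanSpace.single a 1)) :=
            Finset.sum_congr rfl fun a _ => cb_inner F.U F.P.b i j _ _
        _ = ∑ k, ∑ a : Fin 6, ∑ l, F.U k i * F.U l j *
              inner ℝ (F.P.b k (EuclideanSpace.single a 1)) (F.P.b l (EuclideanSpace.single a 1)) :=
            Finset.sum_comm
        _ = _ := by
            refine Finset.sum_congr rfl fun k _ => ?_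
            rw [Finset.sum_comm]
            refine Finset.sum_congr rfl fun l _ => ?_
            rw [Finset.mul_sum]
    rw [bp, bp, h1]
    have h2 : ∀ k, ∑ l, F.U k i * F.U l j * hs (F.P.b k) (F.P.b l) = 2 * (F.U k i * F.U k j) := by
      intro k
      rw [Finset.sum_eq_single k]
      · rw [F.P.b_hs, if_pos rfl]; ring
      · intro l _ hl
        rw [F.P.b_hs, if_neg (Ne.symm hl)]; ring
      · intro h; exact absurd (Finset.mem_univ k) h
    simp only [h2]
    rw [← Finset.mul_sum, Matrix.mul_apply]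
    rfl
  have h2 : hs (F.bp i) (F.bp j) = 2 * (if i = j then 1 else 0)
      + ∑ a, ∑ b, F.Ga i a b * F.Ga j a b := by
    rw [hs_eq, bp_ν, bp_ν, uu_inner]
    have h3 : ∀ b, inner ℝ (F.bp i (F.u b)) (F.bp j (F.u b)) =
        (if b = i.castSucc then (1 : ℝ) else 0) * (if b = j.castSucc then 1 else 0)
          + ∑ a, F.Ga i a b * F.Ga j a b := by
      intro b
      rw [pars F (F.bp i (F.u b)), ν_bp, ν_bp, uu_inner, uu_inner]
      simp only [Ga, eq_comm (a := i.castSucc), eq_comm (a := j.castSucc)]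
      ring
    simp only [h3]
    rw [Finset.sum_add_distrib, Finset.sum_comm (f := fun b a => F.Ga i a b * F.Ga j a b)]
    have h4 : ∑ b : Fin 5, (if b = i.castSucc then (1 : ℝ) else 0) * (if b = j.castSucc then 1 else 0)
        = if i = j then 1 else 0 := by
      rw [Finset.sum_eq_single i.castSucc]
      · simp only [if_true, one_mul, Fin.castSucc_inj]
      · intro b _ hb; rw [if_neg hb, zero_mul]
      · intro h; exact absurd (Finset.mem_univ _) h
    rw [h4]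
    simp only [Fin.castSucc_inj]
    ring
  rw [Matrix.add_apply, X_mul, Matrix.one_apply]
  rw [h1] at h2
  linarith

theorem detU : F.U.det ^ 2 * (Gr F.P.b F.ν).det = 1 := by
  have h := congrArg Matrix.det F.hU
  rw [Matrix.det_mul, Matrix.det_mul, Matrix.det_transpose, Matrix.det_one] at h
  linarith

theorem det_bp (v : E 6) : (Gr F.bp v).det = F.U.det ^ 2 * (Gr F.P.b v).det := by
  have : Gr F.bp v = F.Uᵀ * Gr F.P.b v * F.U := Gr_cb F.U F.P.b v
  rw [this, Matrix.det_mul, Matrix.det_mul, Matrix.det_transpose]; ring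

theorem detU_ge : 1 + F.Dd ≤ F.U.det ^ 2 := by
  have h := det_one_add_gram F.X
  rw [← UtU, Matrix.det_mul, Matrix.det_transpose, X_trace] at h
  linarith

theorem Dd_nonneg : 0 ≤ F.Dd := by
  unfold Dd; positivity

theorem J_pos : 0 < (Gr F.P.b F.ν).det := by
  have h1 := F.detU
  have h2 := F.detU_ge
  have h3 := F.Dd_nonneg
  by_contra hc
  push Not at hc
  have : F.U.det ^ 2 * (Gr F.P.b F.ν).det ≤ 0 := mul_nonpos_of_nonneg_of_nonpos (by linarith) hc
  linarith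

theorem J_le : (1 + F.Dd) * (Gr F.P.b F.ν).det ≤ 1 := by
  have h1 := F.detU
  have h2 := F.detU_ge
  have h3 := F.J_pos
  nlinarith

/-- criticality -/
theorem cr0 (y : E 6) (hy : inner ℝ F.ν y = 0) :
    ∑ j : Fin 4, inner ℝ (F.u j.castSucc) (F.bp j y) = 0 := by
  let S : Matrix (Fin 4) (Fin 4) ℝ := Matrix.of fun i j =>
    inner ℝ (F.u i.castSucc) (F.bp j y) + inner ℝ (F.bp i y) (F.u j.castSucc)
  let T : Matrix (Fin 4) (Fin 4) ℝ := Matrix.of fun i j => inner ℝ (F.bp i y) (F.bp j y)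
  have hG : ∀ ε : ℝ, Gr F.bp (F.ν + ε • y) = 1 + ε • S + ε ^ 2 • T := by
    intro ε
    ext i j
    rw [Gr, Matrix.of_apply, map_add, map_add, map_smul, map_smul, bp_ν, bp_ν]
    simp only [S, T, Matrix.add_apply, Matrix.smul_apply, Matrix.of_apply, smul_eq_mul,
      inner_add_left, inner_add_right, inner_smul_left, inner_smul_right, RCLike.conj_to_real,
      uu_inner, Matrix.one_apply, Fin.castSucc_inj]
    ring
  have h1 := trace_zero_of_max S T (‖y‖ ^ 2) 4 (by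
    intro ε
    rw [← hG, det_bp]
    have h2 := F.hmax (F.ν + ε • y)
    have h3 : ‖F.ν + ε • y‖ ^ 2 = 1 + ‖y‖ ^ 2 * ε ^ 2 := by
      rw [norm_add_sq_real, inner_smul_right, hy, F.hν, norm_smul, mul_pow, Real.norm_eq_abs,
        sq_abs]
      ring
    rw [h3] at h2
    calc F.U.det ^ 2 * (Gr F.P.b (F.ν + ε • y)).det
        ≤ F.U.det ^ 2 * ((Gr F.P.b F.ν).det * (1 + ‖y‖ ^ 2 * ε ^ 2) ^ 4) :=
          mul_le_mul_of_nonneg_left h2 (sq_nonneg _)
      _ = (F.U.det ^ 2 * (Gr F.P.b F.ν).det) * (1 + ‖y‖ ^ 2 * ε ^ 2) ^ 4 := by ring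
      _ = _ := by rw [F.detU, one_mul])
  have h4 : S.trace = ∑ j : Fin 4, 2 * inner ℝ (F.u j.castSucc) (F.bp j y) := by
    rw [Matrix.trace]
    refine Finset.sum_congr rfl fun j _ => ?_
    rw [Matrix.diag_apply]
    simp only [S, Matrix.of_apply]
    rw [real_inner_comm (F.u j.castSucc)]; ring
  rw [h4, ← Finset.mul_sum] at h1
  linarith

theorem cr (i : Fin 5) : ∑ j : Fin 4, F.Ga j i j.castSucc = 0 := by
  have h1 := F.cr0 (F.u i) (F.hνu i)
  have h2 : ∀ j : Fin 4, F.Ga j i j.castSucc = - inner ℝ (F.u j.castSucc) (F.bp j (F.u i)) := by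
    intro j
    rw [Ga_skew, Ga]
  simp only [h2]
  rw [Finset.sum_neg_distrib, h1, neg_zero]

/-- the other unit vector of the plane -/
noncomputable def v' : E 6 := (-F.p2) • F.P.E1 + F.p1 • F.P.E2
noncomputable def xx : E 6 := F.p1 • F.P.E1 + F.p2 • F.P.E2
noncomputable def c : ℝ := inner ℝ F.v' F.ν

theorem E1_eq : F.P.E1 = F.p1 • F.xx - F.p2 • F.v' := by
  have : (F.p1 ^ 2 + F.p2 ^ 2) • F.P.E1 = F.p1 • F.xx - F.p2 • F.v' := by
    rw [xx, v']; module
  rw [← this, F.hp1, one_smul]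

theorem E2_eq : F.P.E2 = F.p2 • F.xx + F.p1 • F.v' := by
  have : (F.p1 ^ 2 + F.p2 ^ 2) • F.P.E2 = F.p2 • F.xx + F.p1 • F.v' := by
    rw [xx, v']; module
  rw [← this, F.hp1, one_smul]

theorem xx_eq : F.xx = F.x0 • F.u 0 + F.xe • F.u 4 := F.hx

theorem xx_ν : inner ℝ F.xx F.ν = 0 := by
  rw [xx_eq, inner_add_left, inner_smul_left, inner_smul_left, huν, huν]; simp

theorem bp_perp (j : Fin 4) (y z : E 6) (h1 : inner ℝ F.xx y = 0) (h2 : inner ℝ F.v' y = 0)
    (h3 : inner ℝ F.xx z = 0) (h4 : inner ℝ F.v' z = 0) : inner ℝ (F.bp j y) z = 0 := by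
  have a1 : inner ℝ F.P.E1 y = 0 := by
    rw [E1_eq, inner_sub_left, inner_smul_left, inner_smul_left, h1, h2]; simp
  have a2 : inner ℝ F.P.E2 y = 0 := by
    rw [E2_eq, inner_add_left, inner_smul_left, inner_smul_left, h1, h2]; simp
  have a3 : inner ℝ F.P.E1 z = 0 := by
    rw [E1_eq, inner_sub_left, inner_smul_left, inner_smul_left, h3, h4]; simp
  have a4 : inner ℝ F.P.E2 z = 0 := by
    rw [E2_eq, inner_add_left, inner_smul_left, inner_smul_left, h3, h4]; simp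
  rw [bp, cb_apply, sum_inner]
  refine Finset.sum_eq_zero fun k _ => ?_
  rw [inner_smul_left, F.P.b_perp k y z a1 a2 a3 a4, mul_zero]

theorem v'v' : inner ℝ F.v' F.v' = 1 := by
  rw [v']
  simp only [inner_add_left, inner_add_right, inner_smul_left, inner_smul_right,
    RCLike.conj_to_real, F.P.h11, F.P.h12, F.P.h22, F.P.h21]
  have := F.hp1
  nlinarith

theorem xxv' : inner ℝ F.xx F.v' = 0 := by
  rw [v', xx]
  simp only [inner_add_left, inner_add_right, inner_smul_left, inner_smul_right,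
    RCLike.conj_to_real, F.P.h11, F.P.h12, F.P.h22, F.P.h21]
  ring

theorem xxxx : inner ℝ F.xx F.xx = 1 := by
  rw [xx]
  simp only [inner_add_left, inner_add_right, inner_smul_left, inner_smul_right,
    RCLike.conj_to_real, F.P.h11, F.P.h12, F.P.h22, F.P.h21]
  have := F.hp1
  nlinarith

theorem c_ne : F.c ≠ 0 := by
  intro hc
  have hc' : inner ℝ F.v' F.ν = 0 := hc
  -- the four vectors `u i` are in the plane
  have h1 : ∀ i : Fin 4, inner ℝ F.xx (F.u i.castSucc) ^ 2 + inner ℝ F.v' (F.u i.castSucc) ^ 2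
      = 1 := by
    intro i
    set q := F.u i.castSucc with hqd
    set z := q - inner ℝ F.xx q • F.xx - inner ℝ F.v' q • F.v' with hz
    have hv'x : inner ℝ F.v' F.xx = 0 := by rw [real_inner_comm]; exact F.xxv'
    have z1 : inner ℝ F.xx z = 0 := by
      rw [hz, inner_sub_right, inner_sub_right, inner_smul_right, inner_smul_right, F.xxxx, F.xxv']
      ring
    have z2 : inner ℝ F.v' z = 0 := by
      rw [hz, inner_sub_right, inner_sub_right, inner_smul_right, inner_smul_right, hv'x, F.v'v']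
      ring
    have h2 := F.bp_perp i F.ν z F.xx_ν hc' z1 z2
    rw [bp_ν, ← hqd, hz, inner_sub_right, inner_sub_right, inner_smul_right, inner_smul_right,
      real_inner_comm F.xx q, real_inner_comm F.v' q] at h2
    have h3 : inner ℝ q q = 1 := by rw [hqd, uu_inner, if_pos rfl]
    rw [h3] at h2
    linarith
  have b1 : ∑ i : Fin 4, inner ℝ F.xx (F.u i.castSucc) ^ 2 ≤ 1 := by
    have h2 := F.pars F.xx F.xx
    rw [F.xxxx, Fin.sum_univ_castSucc] at h2
    have h3 : ∑ i : Fin 4, inner ℝ F.xx (F.u i.castSucc) ^ 2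
        = ∑ i : Fin 4, inner ℝ (F.u i.castSucc) F.xx * inner ℝ (F.u i.castSucc) F.xx := by
      refine Finset.sum_congr rfl fun i _ => ?_
      rw [real_inner_comm]; ring
    rw [h3]
    nlinarith [mul_self_nonneg (inner ℝ F.ν F.xx), mul_self_nonneg (inner ℝ (F.u (Fin.last 4)) F.xx)]
  have b2 : ∑ i : Fin 4, inner ℝ F.v' (F.u i.castSucc) ^ 2 ≤ 1 := by
    have h2 := F.pars F.v' F.v'
    rw [F.v'v', Fin.sum_univ_castSucc] at h2
    have h3 : ∑ i : Fin 4, inner ℝ F.v' (F.u i.castSucc) ^ 2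
        = ∑ i : Fin 4, inner ℝ (F.u i.castSucc) F.v' * inner ℝ (F.u i.castSucc) F.v' := by
      refine Finset.sum_congr rfl fun i _ => ?_
      rw [real_inner_comm]; ring
    rw [h3]
    nlinarith [mul_self_nonneg (inner ℝ F.ν F.v'), mul_self_nonneg (inner ℝ (F.u (Fin.last 4)) F.v')]
  have b3 : ∑ i : Fin 4, (inner ℝ F.xx (F.u i.castSucc) ^ 2 + inner ℝ F.v' (F.u i.castSucc) ^ 2)
      = 4 := by
    simp only [h1]; simp
  rw [Finset.sum_add_distrib] at b3
  linarith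

/-- `ξ = v'/c - ν` -/
noncomputable def ξ : E 6 := (F.c)⁻¹ • F.v' - F.ν

theorem ν_ξ : inner ℝ F.ν F.ξ = 0 := by
  rw [ξ, inner_sub_right, inner_smul_right, νν, real_inner_comm]
  have : inner ℝ F.v' F.ν = F.c := rfl
  rw [this, inv_mul_cancel₀ F.c_ne, sub_self]

theorem v'_eq : F.v' = F.c • (F.ξ + F.ν) := by
  rw [ξ, sub_add_cancel, smul_smul, mul_inv_cancel₀ F.c_ne, one_smul]

theorem c_sq : F.c ^ 2 * (1 + inner ℝ F.ξ F.ξ) = 1 := by
  have h1 := F.v'v'
  have h2 : inner ℝ F.v' F.v' = inner ℝ (F.c • (F.ξ + F.ν)) (F.c • (F.ξ + F.ν)) := by rw [← v'_eq]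
  rw [h2] at h1
  have h3 : inner ℝ F.ξ F.ν = 0 := by rw [real_inner_comm]; exact F.ν_ξ
  simp only [inner_add_left, inner_add_right, inner_smul_left, inner_smul_right,
    RCLike.conj_to_real, F.ν_ξ, h3, F.νν] at h1
  linarith

/-- the structure relation -/
theorem rel (j : Fin 4) (Y Z : E 6) (hY : inner ℝ F.ν Y = 0) (hY' : inner ℝ F.xx Y = 0)
    (hZ : inner ℝ F.ν Z = 0) (hZ' : inner ℝ F.xx Z = 0) :
    inner ℝ (F.bp j Y) Z = inner ℝ F.ξ Y * inner ℝ (F.u j.castSucc) Z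
      - inner ℝ F.ξ Z * inner ℝ (F.u j.castSucc) Y := by
  have hξ : ∀ W, inner ℝ F.ν W = 0 → inner ℝ F.v' W = inner ℝ F.ξ W * F.c := by
    intro W hW
    rw [v'_eq F, inner_smul_left, inner_add_left, hW]
    simp only [RCLike.conj_to_real]; ring
  have h1 := F.bp_perp j (Y - inner ℝ F.ξ Y • F.ν) (Z - inner ℝ F.ξ Z • F.ν)
    (by rw [inner_sub_right, inner_smul_right, F.xx_ν, hY']; ring)
    (by
      rw [inner_sub_right, inner_smul_right, hξ Y hY]
      have : inner ℝ F.v' F.ν = F.c := rfl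
      rw [this]; ring)
    (by rw [inner_sub_right, inner_smul_right, F.xx_ν, hZ']; ring)
    (by
      rw [inner_sub_right, inner_smul_right, hξ Z hZ]
      have : inner ℝ F.v' F.ν = F.c := rfl
      rw [this]; ring)
  rw [map_sub, map_smul, bp_ν] at h1
  have h2 : inner ℝ (F.bp j Y) F.ν = - inner ℝ (F.u j.castSucc) Y := by
    rw [real_inner_comm]; exact F.ν_bp j Y
  simp only [inner_sub_left, inner_sub_right, inner_smul_left, inner_smul_right,
    RCLike.conj_to_real, h2, F.huν] at h1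
  linarith

end FR

end Pool.Agent.W451.N4
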