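import Mathlib
import Pool.Agent.W451.N4.F

/-!
# N4-NF: the normal form and its bounds
-/
set_option autoImplicit false
open Matrix MeasureTheory Set Metric Filter Topology
open scoped ENNReal Nat

namespace Pool.Agent.W451.N4
open Pool.Agent.Helper82.OS Pool.Agent.W546.ST Pool.Agent.W546.N4 Pool.Agent.W367.ST

namespace FR
variable (F : FR)

theorem xx_u (a : Fin 5) (h0 : a ≠ 0) (h4 : a ≠ 4) : inner ℝ F.xx (F.u a) = 0 := by
  rw [xx_eq, inner_add_left, inner_smul_left, inner_smul_left, uu_inner, uu_inner,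
    if_neg (Ne.symm h0), if_neg (Ne.symm h4)]
  simp

theorem Ga_rel (j : Fin 4) (a b : Fin 5) (ha0 : a ≠ 0) (ha4 : a ≠ 4) (hb0 : b ≠ 0) (hb4 : b ≠ 4) :
    F.Ga j a b = inner ℝ F.ξ (F.u b) * (if j.castSucc = a then 1 else 0)
      - inner ℝ F.ξ (F.u a) * (if j.castSucc = b then 1 else 0) := by
  rw [Ga, real_inner_comm, F.rel j (F.u b) (F.u a) (F.hνu b) (F.xx_u b hb0 hb4) (F.hνu a)
    (F.xx_u a ha0 ha4), uu_inner, uu_inner]

theorem ne0 (k : Fin 3) : (k.succ.castSucc : Fin 5) ≠ 0 := by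
  intro h
  have h1 := congrArg Fin.val h
  change (k : ℕ) + 1 = 0 at h1
  omega
theorem ne4 (k : Fin 3) : (k.succ.castSucc : Fin 5) ≠ 4 := by
  intro h
  have h1 := congrArg Fin.val h
  have h2 := k.2
  change (k : ℕ) + 1 = 4 at h1
  omega

theorem xx_Y : inner ℝ F.xx (F.xe • F.u 0 - F.x0 • F.u 4) = 0 := by
  rw [xx_eq]
  simp only [inner_add_left, inner_sub_right, inner_smul_left, inner_smul_right,
    RCLike.conj_to_real, uu_inner]
  simp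
  ring

theorem ν_Y : inner ℝ F.ν (F.xe • F.u 0 - F.x0 • F.u 4) = 0 := by
  rw [inner_sub_right, inner_smul_right, inner_smul_right, F.hνu, F.hνu]; ring

/-- the relation for the vector `xe u_0 - x0 u_4` -/
theorem Y_rel (j : Fin 4) (a : Fin 5) (ha0 : a ≠ 0) (ha4 : a ≠ 4) :
    F.xe * F.Ga j a 0 - F.x0 * F.Ga j a 4 =
      (F.xe * inner ℝ F.ξ (F.u 0) - F.x0 * inner ℝ F.ξ (F.u 4)) * (if j.castSucc = a then 1 else 0)
        - inner ℝ F.ξ (F.u a) * (F.xe * (if j.castSucc = 0 then 1 else 0)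
          - F.x0 * (if j.castSucc = 4 then 1 else 0)) := by
  have h1 := F.rel j (F.xe • F.u 0 - F.x0 • F.u 4) (F.u a) F.ν_Y F.xx_Y (F.hνu a)
    (F.xx_u a ha0 ha4)
  rw [map_sub, map_smul, map_smul] at h1
  simp only [inner_sub_left, inner_sub_right, inner_smul_left, inner_smul_right,
    RCLike.conj_to_real, uu_inner] at h1
  have e1 : F.Ga j a 0 = inner ℝ (F.bp j (F.u 0)) (F.u a) := by rw [Ga, real_inner_comm]
  have e2 : F.Ga j a 4 = inner ℝ (F.bp j (F.u 4)) (F.u a) := by rw [Ga, real_inner_comm]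
  rw [e1, e2]
  exact h1

/-- the normal form -/
noncomputable def toNP : NP where
  Ga := fun j => Matrix.of (F.Ga j)
  x0 := F.x0
  xe := F.xe
  hx := F.hx1
  sk := by
    intro j
    ext a b
    rw [Matrix.transpose_apply, Matrix.neg_apply, Matrix.of_apply, Matrix.of_apply]
    exact F.Ga_skew j b a
  cr := F.cr
  z0 := by
    intro k l
    rw [Matrix.of_apply, F.Ga_rel 0 _ _ (ne0 k) (ne4 k) (ne0 l) (ne4 l)]
    have h1 : ((0 : Fin 4).castSucc : Fin 5) ≠ k.succ.castSucc := Ne.symm (ne0 k)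
    have h2 : ((0 : Fin 4).castSucc : Fin 5) ≠ l.succ.castSucc := Ne.symm (ne0 l)
    rw [if_neg h1, if_neg h2]; ring
  z1 := by
    intro j k l hjk _ hjl
    rw [Matrix.of_apply, F.Ga_rel j.succ _ _ (ne0 k) (ne4 k) (ne0 l) (ne4 l)]
    have h1 : (j.succ.castSucc : Fin 5) ≠ k.succ.castSucc := by
      rw [Ne, Fin.castSucc_inj, Fin.succ_inj]; exact hjk
    have h2 : (j.succ.castSucc : Fin 5) ≠ l.succ.castSucc := by
      rw [Ne, Fin.castSucc_inj, Fin.succ_inj]; exact hjl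
    rw [if_neg h1, if_neg h2]; ring
  z2 := by
    intro j k hjk
    rw [Matrix.of_apply, Matrix.of_apply]
    have h := F.Y_rel j.succ k.succ.castSucc (ne0 k) (ne4 k)
    have h1 : (j.succ.castSucc : Fin 5) ≠ k.succ.castSucc := by
      rw [Ne, Fin.castSucc_inj, Fin.succ_inj]; exact hjk
    rw [if_neg h1, if_neg (ne0 j), if_neg (ne4 j)] at h
    linarith

theorem toNP_D : F.toNP.D = F.Dd := rfl

/-- the Gaussian integral of the normal form -/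
theorem GNP_eq : GNP F.toNP = ∫⁻ v : E 6,
    ENNReal.ofReal (Real.sqrt (Gr F.bp v).det * Real.exp (-(‖v‖ ^ 2 / 2))) := by
  obtain ⟨ι, hι1, hι2⟩ := exists_iso F.u F.hu
  have h0 : ∀ y, inner ℝ F.ν (ι y) = 0 := by
    intro y
    rw [hι2, inner_sum]
    refine Finset.sum_eq_zero fun a _ => ?_
    rw [inner_smul_right, F.hνu, mul_zero]
  have hmp := frame_mp F.ν F.hν ι h0
  rw [int_frame hmp _ (meas_Gr _), GNP]
  refine lintegral_congr fun w => lintegral_congr fun t => ?_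
  have hG : Gr F.bp (t • F.ν + ι w) = F.toNP.gm t w := by
    ext i j
    have hin : ∀ (i : Fin 4) (b : Fin 5), inner ℝ (F.u b) (F.bp i (t • F.ν + ι w)) =
        (if b = i.castSucc then t else 0) + F.toNP.gv w i b := by
      intro i b
      rw [map_add, map_smul, inner_add_right, inner_smul_right, bp_ν, uu_inner, hι2, map_sum,
        inner_sum]
      congr 1
      · split_ifs <;> ring
      · rw [NP.gv, Matrix.mulVec, dotProduct]
        refine Finset.sum_congr rfl fun a _ => ?_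
        rw [map_smul, inner_smul_right]
        have : F.toNP.Ga i b a = inner ℝ (F.u b) (F.bp i (F.u a)) := rfl
        rw [this]; ring
    have hin2 : ∀ i : Fin 4, inner ℝ F.ν (F.bp i (t • F.ν + ι w)) = - w i.castSucc := by
      intro i
      rw [ν_bp, inner_add_right, inner_smul_right, F.huν, mul_zero, zero_add, hι2, inner_sum]
      congr 1
      rw [Finset.sum_eq_single i.castSucc]
      · rw [inner_smul_right, uu_inner, if_pos rfl, mul_one]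
      · intro a _ ha
        rw [inner_smul_right, uu_inner, if_neg (Ne.symm ha), mul_zero]
      · intro h; exact absurd (Finset.mem_univ _) h
    rw [Gr, Matrix.of_apply, F.pars, hin2, hin2, NP.gm, Matrix.of_apply]
    simp only [hin]
    ring
  rw [hG, nsq F.hν h0, gt, gw, ← Real.exp_add]
  congr 3
  ring

theorem det_ge : Real.sqrt (1 + F.Dd) ≤ |F.U.det| := by
  rw [← Real.sqrt_sq_eq_abs]
  exact Real.sqrt_le_sqrt F.detU_ge

theorem int_le : ∫⁻ v : E 6, ENNReal.ofReal (Real.sqrt (Gr F.P.b v).det * Real.exp (-(‖v‖ ^ 2 / 2)))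
    ≤ ENNReal.ofReal (1 / Real.sqrt (1 + F.Dd)) * GNP F.toNP := by
  have hpos : 0 < Real.sqrt (1 + F.Dd) := Real.sqrt_pos.2 (by have := F.Dd_nonneg; linarith)
  have hU : 0 < |F.U.det| := lt_of_lt_of_le hpos F.det_ge
  rw [GNP_eq, ← lintegral_const_mul _ (meas_Gr _)]
  refine lintegral_mono fun v => ?_
  rw [← ENNReal.ofReal_mul (by positivity)]
  apply ENNReal.ofReal_le_ofReal
  rw [det_bp, Real.sqrt_mul (sq_nonneg _), Real.sqrt_sq_eq_abs]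
  have h1 : 1 ≤ 1 / Real.sqrt (1 + F.Dd) * |F.U.det| := by
    rw [one_div, inv_mul_eq_div, le_div_iff₀ hpos, one_mul]; exact F.det_ge
  have h2 : 0 ≤ Real.sqrt (Gr F.P.b v).det * Real.exp (-(‖v‖ ^ 2 / 2)) := by positivity
  calc Real.sqrt (Gr F.P.b v).det * Real.exp (-(‖v‖ ^ 2 / 2))
      = 1 * (Real.sqrt (Gr F.P.b v).det * Real.exp (-(‖v‖ ^ 2 / 2))) := by ring
    _ ≤ (1 / Real.sqrt (1 + F.Dd) * |F.U.det|) *
        (Real.sqrt (Gr F.P.b v).det * Real.exp (-(‖v‖ ^ 2 / 2))) :=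
        mul_le_mul_of_nonneg_right h1 h2
    _ = _ := by ring

/-! ### bounds -/

/-- half of the squared norm of a skew matrix -/
theorem half_hs (j : Fin 4) : (1 / 2) * ∑ a, ∑ b, F.Ga j a b ^ 2 =
    F.Ga j 0 1 ^ 2 + F.Ga j 0 2 ^ 2 + F.Ga j 0 3 ^ 2 + F.Ga j 0 4 ^ 2 + F.Ga j 1 2 ^ 2
      + F.Ga j 1 3 ^ 2 + F.Ga j 1 4 ^ 2 + F.Ga j 2 3 ^ 2 + F.Ga j 2 4 ^ 2 + F.Ga j 3 4 ^ 2 := by
  simp only [Fin.sum_univ_five]
  rw [F.Ga_skew j 1 0, F.Ga_skew j 2 0, F.Ga_skew j 3 0, F.Ga_skew j 4 0, F.Ga_skew j 2 1,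
    F.Ga_skew j 3 1, F.Ga_skew j 4 1, F.Ga_skew j 3 2, F.Ga_skew j 4 2, F.Ga_skew j 4 3,
    F.Ga_self, F.Ga_self, F.Ga_self, F.Ga_self, F.Ga_self]
  ring

theorem Dd_eq : F.Dd = ∑ j : Fin 4, (1 / 2) * ∑ a, ∑ b, F.Ga j a b ^ 2 := by
  rw [Dd, Finset.mul_sum]

theorem half_nonneg (j : Fin 4) : 0 ≤ (1 / 2) * ∑ a, ∑ b, F.Ga j a b ^ 2 := by positivity

theorem half_le (j : Fin 4) : (1 / 2) * ∑ a, ∑ b, F.Ga j a b ^ 2 ≤ F.Dd := by
  rw [Dd_eq]
  exact Finset.single_le_sum (f := fun j : Fin 4 => (1 / 2) * ∑ a, ∑ b, F.Ga j a b ^ 2)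
    (fun i _ => F.half_nonneg i) (Finset.mem_univ j)

/-- `|ξ|²` in coordinates -/
theorem ξξ : inner ℝ F.ξ F.ξ = (F.xe * inner ℝ F.ξ (F.u 0) - F.x0 * inner ℝ F.ξ (F.u 4)) ^ 2
    + inner ℝ F.ξ (F.u 1) ^ 2 + inner ℝ F.ξ (F.u 2) ^ 2 + inner ℝ F.ξ (F.u 3) ^ 2 := by
  have hxξ : F.x0 * inner ℝ F.ξ (F.u 0) + F.xe * inner ℝ F.ξ (F.u 4) = 0 := by
    have h1 : inner ℝ F.ξ F.xx = 0 := by
      rw [ξ, inner_sub_left, inner_smul_left, real_inner_comm F.xx F.ν, real_inner_comm F.xx F.v',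
        F.xx_ν, F.xxv']
      simp
    rw [xx_eq, inner_add_right, inner_smul_right, inner_smul_right] at h1
    exact h1
  have h2 := F.pars F.ξ F.ξ
  rw [F.ν_ξ, Fin.sum_univ_five] at h2
  rw [h2]
  rw [real_inner_comm F.ξ (F.u 0), real_inner_comm F.ξ (F.u 1), real_inner_comm F.ξ (F.u 2),
    real_inner_comm F.ξ (F.u 3), real_inner_comm F.ξ (F.u 4)]
  have h3 := F.hx1
  have h4 : inner ℝ F.ξ (F.u 0) ^ 2 + inner ℝ F.ξ (F.u 4) ^ 2 =
      (F.xe * inner ℝ F.ξ (F.u 0) - F.x0 * inner ℝ F.ξ (F.u 4)) ^ 2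
        + (F.x0 * inner ℝ F.ξ (F.u 0) + F.xe * inner ℝ F.ξ (F.u 4)) ^ 2 := by
    have : (F.xe * inner ℝ F.ξ (F.u 0) - F.x0 * inner ℝ F.ξ (F.u 4)) ^ 2
        + (F.x0 * inner ℝ F.ξ (F.u 0) + F.xe * inner ℝ F.ξ (F.u 4)) ^ 2
        = (F.x0 ^ 2 + F.xe ^ 2) * (inner ℝ F.ξ (F.u 0) ^ 2 + inner ℝ F.ξ (F.u 4) ^ 2) := by ring
    rw [this, h3, one_mul]
  rw [hxξ] at h4
  linarith

theorem cs2 (p q a b : ℝ) (h : p ^ 2 + q ^ 2 = 1) : (q * a - p * b) ^ 2 ≤ a ^ 2 + b ^ 2 := by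
  have : a ^ 2 + b ^ 2 - (q * a - p * b) ^ 2 = (p * a + q * b) ^ 2 := by
    have : a ^ 2 + b ^ 2 = (p ^ 2 + q ^ 2) * (a ^ 2 + b ^ 2) := by rw [h, one_mul]
    rw [this]; ring
  nlinarith [sq_nonneg (p * a + q * b)]

/-- `2 |ξ|² ≤ D` -/
theorem ξ_le : 2 * inner ℝ F.ξ F.ξ ≤ F.Dd := by
  have e1 : ∀ j : Fin 4, F.Ga j 1 0 = - F.Ga j 0 1 := fun j => F.Ga_skew j 1 0
  have e2 : ∀ j : Fin 4, F.Ga j 2 0 = - F.Ga j 0 2 := fun j => F.Ga_skew j 2 0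
  have e3 : ∀ j : Fin 4, F.Ga j 3 0 = - F.Ga j 0 3 := fun j => F.Ga_skew j 3 0
  have y1 := F.Y_rel 1 1 (by decide) (by decide)
  have y2 := F.Y_rel 2 2 (by decide) (by decide)
  have y3 := F.Y_rel 3 3 (by decide) (by decide)
  rw [if_pos (by decide), if_neg (by decide), if_neg (by decide)] at y1 y2 y3
  have r12 := F.Ga_rel 1 1 2 (by decide) (by decide) (by decide) (by decide)
  have r13 := F.Ga_rel 1 1 3 (by decide) (by decide) (by decide) (by decide)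
  have r21 := F.Ga_rel 2 1 2 (by decide) (by decide) (by decide) (by decide)
  have r23 := F.Ga_rel 2 2 3 (by decide) (by decide) (by decide) (by decide)
  have r31 := F.Ga_rel 3 1 3 (by decide) (by decide) (by decide) (by decide)
  have r32 := F.Ga_rel 3 2 3 (by decide) (by decide) (by decide) (by decide)
  rw [if_pos (by decide), if_neg (by decide)] at r12 r13 r23
  rw [if_neg (by decide), if_pos (by decide)] at r21 r31 r32
  have c1 := cs2 F.x0 F.xe (F.Ga 1 1 0) (F.Ga 1 1 4) F.hx1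
  have c2 := cs2 F.x0 F.xe (F.Ga 2 2 0) (F.Ga 2 2 4) F.hx1
  have c3 := cs2 F.x0 F.xe (F.Ga 3 3 0) (F.Ga 3 3 4) F.hx1
  rw [y1, e1] at c1
  rw [y2, e2] at c2
  rw [y3, e3] at c3
  have hD := F.Dd_eq
  rw [Fin.sum_univ_four, half_hs, half_hs, half_hs, half_hs] at hD
  rw [F.ξξ, hD, r12, r13, r21, r23, r31, r32]
  have p := fun j a b => sq_nonneg (F.Ga j a b)
  have p0 := half_nonneg F 0
  rw [half_hs] at p0
  set A := F.xe * inner ℝ F.ξ (F.u 0) - F.x0 * inner ℝ F.ξ (F.u 4)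
  set B := inner ℝ F.ξ (F.u 1)
  set C := inner ℝ F.ξ (F.u 2)
  set Dq := inner ℝ F.ξ (F.u 3)
  have q1 := p 1 0 2; have q2 := p 1 0 3; have q3 := p 1 0 4
  have q4 := p 1 2 3; have q5 := p 1 2 4; have q6 := p 1 3 4
  have s1 := p 2 0 1; have s2 := p 2 0 3; have s3 := p 2 0 4
  have s4 := p 2 1 3; have s5 := p 2 1 4; have s6 := p 2 3 4
  have t1 := p 3 0 1; have t2 := p 3 0 2; have t3 := p 3 0 4
  have t4 := p 3 1 2; have t5 := p 3 1 4; have t6 := p 3 2 4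
  have hA2 := sq_nonneg A
  linarith

theorem ξ_nonneg : 0 ≤ inner ℝ F.ξ F.ξ := real_inner_self_nonneg

/-- `β² ≤ D |ξ|²` with `β = ⟨b'_0 x, ξ⟩` -/
theorem beta_le : inner ℝ (F.bp 0 F.xx) F.ξ ^ 2 ≤ F.Dd * inner ℝ F.ξ F.ξ := by
  have h1 := F.pars (F.bp 0 F.xx) F.ξ
  rw [F.ν_ξ, mul_zero, zero_add] at h1
  have h2 : (∑ a, inner ℝ (F.u a) (F.bp 0 F.xx) * inner ℝ (F.u a) F.ξ) ^ 2 ≤
      (∑ a, inner ℝ (F.u a) (F.bp 0 F.xx) ^ 2) * ∑ a, inner ℝ (F.u a) F.ξ ^ 2 :=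
    Finset.sum_mul_sq_le_sq_mul_sq _ _ _
  have h3 : ∑ a, inner ℝ (F.u a) F.ξ ^ 2 = inner ℝ F.ξ F.ξ := by
    have := F.pars F.ξ F.ξ
    rw [F.ν_ξ, mul_zero, zero_add] at this
    rw [this]
    refine Finset.sum_congr rfl fun a _ => ?_
    ring
  have h4 : ∀ a, inner ℝ (F.u a) (F.bp 0 F.xx) = F.x0 * F.Ga 0 a 0 + F.xe * F.Ga 0 a 4 := by
    intro a
    rw [xx_eq, map_add, map_smul, map_smul, inner_add_right, inner_smul_right, inner_smul_right]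
    rfl
  have h5 : ∑ a, inner ℝ (F.u a) (F.bp 0 F.xx) ^ 2 ≤ F.Dd := by
    refine le_trans ?_ (F.half_le 0)
    rw [half_hs, Fin.sum_univ_five, h4, h4, h4, h4, h4, F.Ga_self, F.Ga_self, F.Ga_skew 0 1 0,
      F.Ga_skew 0 2 0, F.Ga_skew 0 3 0, F.Ga_skew 0 4 0]
    have c1 := cs2 F.xe F.x0 (-F.Ga 0 0 1) (-F.Ga 0 1 4) (by rw [add_comm]; exact F.hx1)
    have c2 := cs2 F.xe F.x0 (-F.Ga 0 0 2) (-F.Ga 0 2 4) (by rw [add_comm]; exact F.hx1)
    have c3 := cs2 F.xe F.x0 (-F.Ga 0 0 3) (-F.Ga 0 3 4) (by rw [add_comm]; exact F.hx1)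
    have c4 : (F.x0 * 0 + F.xe * F.Ga 0 0 4) ^ 2 + (F.x0 * -F.Ga 0 0 4 + F.xe * 0) ^ 2
        = F.Ga 0 0 4 ^ 2 := by
      have : (F.x0 * 0 + F.xe * F.Ga 0 0 4) ^ 2 + (F.x0 * -F.Ga 0 0 4 + F.xe * 0) ^ 2
        = (F.x0 ^ 2 + F.xe ^ 2) * F.Ga 0 0 4 ^ 2 := by ring
      rw [this, F.hx1, one_mul]
    have q1 := sq_nonneg (F.Ga 0 1 2)
    have q2 := sq_nonneg (F.Ga 0 1 3)
    have q3 := sq_nonneg (F.Ga 0 2 3)
    linarith
  rw [h1]
  calc _ ≤ _ := h2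
    _ ≤ F.Dd * inner ℝ F.ξ F.ξ := by
      rw [h3]
      exact mul_le_mul_of_nonneg_right h5 F.ξ_nonneg

end FR

end Pool.Agent.W451.N4
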