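import Mathlib
import Pool.Agent.W451.N4.G

/-!
# N4-NF: the normal form
-/
set_option autoImplicit false
open Matrix MeasureTheory Set Metric Filter Topology
open scoped ENNReal Nat

namespace Pool.Agent.W451.N4
open Pool.Agent.Helper82.OS Pool.Agent.W546.ST Pool.Agent.W546.N4 Pool.Agent.W367.ST

namespace FR
variable (F : FR)

theorem b_xx (k : Fin 4) : inner ℝ (F.P.b k F.xx) F.v' = F.P.w k := by
  rw [xx, v', map_add, map_smul, map_smul, F.P.b_E1, F.P.b_E2]
  simp only [inner_add_left, inner_add_right, inner_sub_left, inner_smul_left, inner_smul_right,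
    RCLike.conj_to_real, F.P.h11, F.P.h12, F.P.h22, F.P.h21, F.P.hA1', F.P.hA2', F.P.hC1',
    F.P.hC2']
  have h := F.hp1
  linear_combination F.P.w k * h

theorem s_bound (s : ℝ) (hw : ∀ j, F.P.w j = if j = 0 then s else 0) (hD : F.Dd ≤ 39 / 500)
    (hx0 : 2 / 5 < F.x0 ^ 2) : 29 / 100 ≤ s ^ 2 := by
  have hT1 : inner ℝ (F.bp 0 F.xx) F.v' = F.U 0 0 * s := by
    rw [bp, cb_apply, sum_inner, Finset.sum_eq_single 0]
    · rw [inner_smul_left, b_xx, hw, if_pos rfl]; simp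
    · intro k _ hk
      rw [inner_smul_left, b_xx, hw, if_neg hk, mul_zero]
    · intro h; exact absurd (Finset.mem_univ _) h
  set β := inner ℝ (F.bp 0 F.xx) F.ξ with hβ
  have hT2 : inner ℝ (F.bp 0 F.xx) F.v' = F.c * (β - F.x0) := by
    rw [v'_eq F, inner_smul_right, inner_add_right]
    have h1 : inner ℝ (F.bp 0 F.xx) F.ν = - F.x0 := by
      rw [real_inner_comm, ν_bp, xx_eq, inner_add_right, inner_smul_right, inner_smul_right,
        uu_inner, uu_inner]
      simp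
    rw [h1]; ring
  have hU : F.U 0 0 ^ 2 ≤ 1 + F.Dd := by
    have h1 := congrFun (congrFun F.UtU 0) 0
    rw [Matrix.add_apply, Matrix.one_apply_eq, X_mul, Matrix.mul_apply] at h1
    have h2 : F.U 0 0 ^ 2 ≤ ∑ k, F.Uᵀ 0 k * F.U k 0 := by
      have : ∑ k, F.Uᵀ 0 k * F.U k 0 = ∑ k, F.U k 0 ^ 2 := by
        refine Finset.sum_congr rfl fun k _ => ?_
        rw [Matrix.transpose_apply]; ring
      rw [this]
      exact Finset.single_le_sum (f := fun k : Fin 4 => F.U k 0 ^ 2) (fun i _ => sq_nonneg _)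
        (Finset.mem_univ 0)
    have h3 := F.half_le 0
    have h4 : (1 / 2) * ∑ a, ∑ b, F.Ga 0 a b * F.Ga 0 a b = (1 / 2) * ∑ a, ∑ b, F.Ga 0 a b ^ 2 := by
      congr 1
      refine Finset.sum_congr rfl fun a _ => Finset.sum_congr rfl fun b _ => ?_
      ring
    rw [h4] at h1
    linarith
  have hc := F.c_sq
  have hξ := F.ξ_le
  have hξ0 := F.ξ_nonneg
  have hβ2 := F.beta_le
  rw [← hβ] at hβ2
  set q := inner ℝ F.ξ F.ξ with hq
  have hD0 := F.Dd_nonneg
  -- numerical part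
  have h1 : F.c ^ 2 * (β - F.x0) ^ 2 ≤ (1 + F.Dd) * s ^ 2 := by
    have : F.c ^ 2 * (β - F.x0) ^ 2 = F.U 0 0 ^ 2 * s ^ 2 := by
      rw [← mul_pow, ← mul_pow, ← hT1, ← hT2]
    rw [this]
    exact mul_le_mul_of_nonneg_right hU (sq_nonneg _)
  have h2 : (β - F.x0) ^ 2 ≤ (1 + F.Dd) * (1 + q) * s ^ 2 := by
    have h3 : (1 + q) * (F.c ^ 2 * (β - F.x0) ^ 2) ≤ (1 + q) * ((1 + F.Dd) * s ^ 2) :=
      mul_le_mul_of_nonneg_left h1 (by linarith)
    have h4 : (1 + q) * (F.c ^ 2 * (β - F.x0) ^ 2) = (β - F.x0) ^ 2 := by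
      calc _ = (F.c ^ 2 * (1 + q)) * (β - F.x0) ^ 2 := by ring
        _ = _ := by rw [hc, one_mul]
    rw [h4] at h3
    linarith
  have h5 : β ^ 2 ≤ 3047 / 1000000 := by
    have : F.Dd * q ≤ 39 / 500 * (39 / 1000) :=
      mul_le_mul hD (by linarith) hξ0 (by norm_num)
    have h6 : (39 / 500 * (39 / 1000) : ℝ) ≤ 3047 / 1000000 := by norm_num
    linarith
  have h7 : |β| ≤ 552 / 10000 := by
    apply abs_le_of_sq_le_sq _ (by norm_num)
    calc β ^ 2 ≤ _ := h5
      _ ≤ (552 / 10000) ^ 2 := by norm_num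
  have h8 : 632 / 1000 < |F.x0| := by
    apply lt_of_pow_lt_pow_left₀ 2 (abs_nonneg _)
    rw [sq_abs]
    have : ((632 : ℝ) / 1000) ^ 2 < 2 / 5 := by norm_num
    linarith
  have h9 : 5768 / 10000 ≤ |β - F.x0| := by
    have := abs_sub_abs_le_abs_sub F.x0 β
    rw [abs_sub_comm] at this
    linarith
  have h10 : (5768 / 10000 : ℝ) ^ 2 ≤ (β - F.x0) ^ 2 := by
    rw [← sq_abs (β - F.x0)]
    exact pow_le_pow_left₀ (by norm_num) h9 2
  by_contra hc'
  push Not at hc'
  have h11 : (1 + F.Dd) * (1 + q) ≤ (539 / 500) * (1039 / 1000) :=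
    mul_le_mul (by linarith) (by linarith) (by linarith) (by norm_num)
  have h12 : (1 + F.Dd) * (1 + q) * s ^ 2 ≤ (539 / 500) * (1039 / 1000) * (29 / 100) :=
    mul_le_mul h11 hc'.le (sq_nonneg _) (by norm_num)
  have h13 : (539 / 500 * (1039 / 1000) * (29 / 100) : ℝ) < (5768 / 10000) ^ 2 := by norm_num
  linarith

/-- the case `D = 0` -/
theorem zero_case (hD : F.Dd = 0) (s : ℝ) (hw : ∀ j, F.P.w j = if j = 0 then s else 0)
    (al : ∑ j : Fin 3, inner ℝ (F.P.Ah j.succ) (F.P.Ch j.succ) = 0)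
    (hl : 2 * ∑ j : Fin 3, inner ℝ (F.P.Ah j.succ) (F.P.Ah j.succ) ≤ 3) :
    ∑ j : Fin 4, inner ℝ (F.P.Ah j) (F.P.Ah j) = 0 := by
  have hGa : ∀ j a b, F.Ga j a b = 0 := by
    intro j a b
    have h1 := F.half_le j
    rw [hD] at h1
    have h2 : ∑ a, ∑ b, F.Ga j a b ^ 2 ≤ 0 := by linarith
    have h3 : F.Ga j a b ^ 2 ≤ ∑ a, ∑ b, F.Ga j a b ^ 2 := by
      calc F.Ga j a b ^ 2 ≤ ∑ b, F.Ga j a b ^ 2 :=
            Finset.single_le_sum (f := fun b => F.Ga j a b ^ 2) (fun i _ => sq_nonneg _)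
              (Finset.mem_univ b)
        _ ≤ _ := Finset.single_le_sum (f := fun a => ∑ b, F.Ga j a b ^ 2)
              (fun i _ => by positivity) (Finset.mem_univ a)
    have h4 : F.Ga j a b ^ 2 = 0 := le_antisymm (h3.trans h2) (sq_nonneg _)
    exact pow_eq_zero_iff (two_ne_zero) |>.1 h4
  have hξ : inner ℝ F.ξ F.ξ = 0 := by
    have h1 := F.ξ_le
    have h2 := F.ξ_nonneg
    linarith
  have hξ0 : F.ξ = 0 := inner_self_eq_zero.1 hξ
  have hc : F.c ^ 2 = 1 := by
    have := F.c_sq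
    rw [hξ] at this; linarith
  have hν : F.ν = F.c • F.v' := by
    have := F.v'_eq
    rw [hξ0, zero_add] at this
    rw [this, smul_smul, ← sq, hc, one_smul]
  have hUU : F.Uᵀ * F.U = 1 := by
    rw [UtU]
    have : F.X * F.Xᵀ = 0 := by
      ext i j
      rw [X_mul]
      simp [hGa]
    rw [this, add_zero]
  have hUU' : F.U * F.Uᵀ = 1 := mul_eq_one_comm.mp hUU
  have hbz : ∀ j z, F.bp j z = inner ℝ F.ν z • F.u j.castSucc - inner ℝ (F.u j.castSucc) z • F.ν := by
    intro j z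
    have h1 := F.dec (F.bp j z)
    rw [ν_bp] at h1
    have h2 : ∀ a, inner ℝ (F.u a) (F.bp j z) = inner ℝ F.ν z * (if a = j.castSucc then 1 else 0) := by
      intro a
      conv_lhs => rw [F.dec z]
      rw [map_add, map_smul, map_sum, inner_add_right, inner_smul_right, bp_ν, uu_inner, inner_sum,
        Finset.sum_eq_zero, add_zero]
      intro b _
      rw [map_smul, inner_smul_right]
      have := hGa j a b
      rw [Ga] at this
      rw [this, mul_zero]
    simp only [h2] at h1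
    rw [Finset.sum_eq_single j.castSucc] at h1
    · rw [h1, if_pos rfl]; module
    · intro a _ ha
      rw [if_neg ha, mul_zero, zero_smul]
    · intro h; exact absurd (Finset.mem_univ _) h
  let r : Fin 4 → E 6 := fun j => ∑ i, F.U j i • F.u i.castSucc
  have hPb : ∀ j z, F.P.b j z = inner ℝ F.ν z • r j - inner ℝ (r j) z • F.ν := by
    intro j z
    have h1 : F.P.b j z = ∑ i, F.U j i • F.bp i z := by
      simp only [bp, cb_apply, Finset.smul_sum, smul_smul]
      rw [Finset.sum_comm]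
      have h2 : ∀ k, ∑ i, (F.U j i * F.U k i) • F.P.b k z
          = (if j = k then (1 : ℝ) else 0) • F.P.b k z := by
        intro k
        rw [← Finset.sum_smul]
        congr 1
        have := congrFun (congrFun hUU' j) k
        rw [Matrix.mul_apply, Matrix.one_apply] at this
        rw [← this]
        rfl
      simp only [h2]
      simp
    rw [h1]
    simp only [hbz, r, smul_sub, Finset.sum_sub_distrib, smul_smul, Finset.smul_sum, sum_inner,
      inner_smul_left, RCLike.conj_to_real, Finset.sum_smul]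
    congr 1
    refine Finset.sum_congr rfl fun i _ => ?_
    rw [mul_comm]
  have hrν : ∀ j, inner ℝ F.ν (r j) = 0 := by
    intro j
    simp only [r, inner_sum, inner_smul_right, F.hνu, mul_zero, Finset.sum_const_zero]
  have hrr : ∀ j, inner ℝ (r j) (r j) = 1 := by
    intro j
    have h1 : inner ℝ (r j) (r j) = ∑ i, F.U j i * F.U j i := by
      simp only [r, sum_inner, inner_sum, inner_smul_left, inner_smul_right, RCLike.conj_to_real,
        uu_inner, Fin.castSucc_inj]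
      refine Finset.sum_congr rfl fun i _ => ?_
      simp
    rw [h1]
    have := congrFun (congrFun hUU' j) j
    rw [Matrix.mul_apply, Matrix.one_apply_eq] at this
    rw [← this]
    rfl
  set y0 := inner ℝ F.ν F.P.E1 with hy0
  set t0 := inner ℝ F.ν F.P.E2 with ht0
  have hν2 : F.ν = y0 • F.P.E1 + t0 • F.P.E2 := by
    have e1 : y0 = F.c * (-F.p2) := by
      rw [hy0, hν, v', inner_smul_left, inner_add_left, inner_smul_left, inner_smul_left, F.P.h11,
        F.P.h21]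
      simp
    have e2 : t0 = F.c * F.p1 := by
      rw [ht0, hν, v', inner_smul_left, inner_add_left, inner_smul_left, inner_smul_left, F.P.h22,
        F.P.h12]
      simp
    rw [e1, e2, hν, v']; module
  have hyt : y0 ^ 2 + t0 ^ 2 = 1 := by
    have h1 := F.νν
    have h2 : inner ℝ F.ν F.ν = inner ℝ F.ν (y0 • F.P.E1 + t0 • F.P.E2) := by rw [← hν2]
    rw [h2, inner_add_right, inner_smul_right, inner_smul_right, ← hy0, ← ht0] at h1
    linarith
  have hA : ∀ j, F.P.Ah j = y0 • r j - inner ℝ (r j) F.P.E1 • F.ν - F.P.w j • F.P.E2 := by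
    intro j
    have h1 := F.P.b_E1 j
    rw [hPb, ← hy0] at h1
    rw [h1]; abel
  have hC : ∀ j, F.P.Ch j = t0 • r j - inner ℝ (r j) F.P.E2 • F.ν + F.P.w j • F.P.E1 := by
    intro j
    have h1 := F.P.b_E2 j
    rw [hPb, ← ht0] at h1
    rw [h1]; abel
  have hEν1 : inner ℝ F.P.E1 F.ν = y0 := by rw [real_inner_comm]
  have hEν2 : inner ℝ F.P.E2 F.ν = t0 := by rw [real_inner_comm]
  have hr0 : ∀ j : Fin 3, inner ℝ (r j.succ) F.P.E1 = 0 ∧ inner ℝ (r j.succ) F.P.E2 = 0 := by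
    intro j
    have hwj : F.P.w j.succ = 0 := by rw [hw, if_neg (Fin.succ_ne_zero j)]
    have h1 := F.P.hA2 j.succ
    rw [hA, hwj, zero_smul, sub_zero, inner_sub_right, inner_smul_right, inner_smul_right, hEν2,
      real_inner_comm] at h1
    have h2 := hrν j.succ
    rw [hν2, inner_add_left, inner_smul_left, inner_smul_left, real_inner_comm (r j.succ),
      real_inner_comm (r j.succ)] at h2
    simp only [RCLike.conj_to_real] at h2
    set a := inner ℝ (r j.succ) F.P.E1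
    set b := inner ℝ (r j.succ) F.P.E2
    constructor
    · have : a * (y0 ^ 2 + t0 ^ 2) = 0 := by
        have : a * (y0 ^ 2 + t0 ^ 2) = y0 * (y0 * a + t0 * b) - t0 * (y0 * b - a * t0) := by ring
        rw [this, h2, h1]; ring
      rw [hyt, mul_one] at this
      exact this
    · have : b * (y0 ^ 2 + t0 ^ 2) = 0 := by
        have : b * (y0 ^ 2 + t0 ^ 2) = t0 * (y0 * a + t0 * b) + y0 * (y0 * b - a * t0) := by ring
        rw [this, h2, h1]; ring
      rw [hyt, mul_one] at this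
      exact this
  have hAj : ∀ j : Fin 3, F.P.Ah j.succ = y0 • r j.succ := by
    intro j
    rw [hA, (hr0 j).1, hw, if_neg (Fin.succ_ne_zero j)]; simp
  have hCj : ∀ j : Fin 3, F.P.Ch j.succ = t0 • r j.succ := by
    intro j
    rw [hC, (hr0 j).2, hw, if_neg (Fin.succ_ne_zero j)]; simp
  have al2 : y0 * t0 = 0 := by
    have : ∑ j : Fin 3, inner ℝ (F.P.Ah j.succ) (F.P.Ch j.succ) = 3 * (y0 * t0) := by
      have h1 : ∀ j : Fin 3, inner ℝ (F.P.Ah j.succ) (F.P.Ch j.succ) = y0 * t0 := by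
        intro j
        rw [hAj, hCj, inner_smul_left, inner_smul_right, hrr]; simp
      simp only [h1]; simp
    rw [this] at al
    linarith
  have hl2 : 2 * (3 * y0 ^ 2) ≤ 3 := by
    have : ∑ j : Fin 3, inner ℝ (F.P.Ah j.succ) (F.P.Ah j.succ) = 3 * y0 ^ 2 := by
      have h1 : ∀ j : Fin 3, inner ℝ (F.P.Ah j.succ) (F.P.Ah j.succ) = y0 ^ 2 := by
        intro j
        rw [hAj, inner_smul_left, inner_smul_right, hrr]; simp [sq]
      simp only [h1]; simp
    rw [this] at hl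
    exact hl
  have hy00 : y0 = 0 := by
    rcases mul_eq_zero.1 al2 with h | h
    · exact h
    · exfalso
      rw [h] at hyt
      nlinarith
  rw [Fin.sum_univ_succ, Finset.sum_eq_zero, add_zero]
  · -- `j = 0`
    have h1 : F.P.Ah 0 = (-(inner ℝ (r 0) F.P.E1 * t0) - F.P.w 0) • F.P.E2 := by
      rw [hA, hy00, zero_smul, zero_sub]
      conv_lhs => rw [hν2, hy00, zero_smul, zero_add]
      module
    have h2 := F.P.hA2 0
    have h3 : inner ℝ (F.P.Ah 0) (F.P.Ah 0) =
        (-(inner ℝ (r 0) F.P.E1 * t0) - F.P.w 0) * inner ℝ F.P.E2 (F.P.Ah 0) := by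
      conv_lhs => rw [h1, inner_smul_left]
      rw [← h1]; simp
    rw [h3, h2, mul_zero]
  · intro j _
    rw [hAj, hy00, zero_smul, inner_zero_left]

end FR

theorem exists_p (n1 n2 : ℝ) : ∃ p1 p2 : ℝ, p1 ^ 2 + p2 ^ 2 = 1 ∧ p1 * n1 + p2 * n2 = 0 := by
  by_cases h : n1 ^ 2 + n2 ^ 2 = 0
  · have h1 : n1 = 0 := by nlinarith [sq_nonneg n1, sq_nonneg n2]
    have h2 : n2 = 0 := by nlinarith [sq_nonneg n1, sq_nonneg n2]
    exact ⟨1, 0, by norm_num, by rw [h1, h2]; ring⟩
  · have hpos : 0 < n1 ^ 2 + n2 ^ 2 := lt_of_le_of_ne (by positivity) (Ne.symm h)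
    set R := Real.sqrt (n1 ^ 2 + n2 ^ 2) with hR
    have hR2 : R ^ 2 = n1 ^ 2 + n2 ^ 2 := Real.sq_sqrt hpos.le
    have hR0 : R ≠ 0 := (Real.sqrt_pos.2 hpos).ne'
    refine ⟨-n2 / R, n1 / R, ?_, ?_⟩
    · field_simp
      rw [hR2]; ring
    · field_simp
      ring

theorem NF : St4_NF := by
  intro P hP
  obtain ⟨D, hw, hAA, hAC, hGJ⟩ := exists_PD P
  have hdel : P.tau + 3 * P.lam = ∑ j : Fin 4, inner ℝ (D.Ah j) (D.Ah j) := by
    rw [Fin.sum_univ_succ, hAA]
    have h1 : ∑ j : Fin 3, inner ℝ (D.Ah j.succ) (D.Ah j.succ)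
        = ∑ j : Fin 3, P.A j.succ ⬝ᵥ P.A j.succ := Finset.sum_congr rfl fun j _ => hAA _ _
    rw [h1, PA.tau, PA.lam]
    push_cast
    ring
  obtain ⟨ν, hν, hmax⟩ := exists_maxdet D.b
  have hdelA : (P.A * (P.A)ᵀ).trace = P.tau + 3 * P.lam := by
    rw [hdel, Matrix.trace]
    refine Finset.sum_congr rfl fun j _ => ?_
    rw [hAA, Matrix.diag_apply, Matrix.mul_apply']
    rfl
  have hJ : 1 - (P.tau + 3 * P.lam) ≤ (Gr D.b ν).det := by
    have h1 := hmax D.E2
    have h2 : ‖D.E2‖ ^ 2 = 1 := by rw [← real_inner_self_eq_norm_sq, D.h22]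
    rw [h2, one_pow, mul_one, D.Gr_E2] at h1
    have h3 : (Matrix.of fun i j => inner ℝ (D.Ah i) (D.Ah j)) = P.A * (P.A)ᵀ := by
      ext i j
      rw [Matrix.of_apply, hAA, Matrix.mul_apply']
      rfl
    rw [h3] at h1
    have h4 := det_one_sub_gram P.A (by rw [hdelA]; linarith)
    rw [hdelA] at h4
    linarith
  have hJ0 : 0 < (Gr D.b ν).det := by linarith
  obtain ⟨p1, p2, hp, hpν⟩ := exists_p (inner ℝ D.E1 ν) (inner ℝ D.E2 ν)
  have hxx : inner ℝ (p1 • D.E1 + p2 • D.E2) (p1 • D.E1 + p2 • D.E2) = (1 : ℝ) := by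
    simp only [inner_add_left, inner_add_right, inner_smul_left, inner_smul_right,
      RCLike.conj_to_real, D.h11, D.h12, D.h22, D.h21]
    linarith
  have hxn : ‖p1 • D.E1 + p2 • D.E2‖ = 1 := by
    rw [real_inner_self_eq_norm_sq] at hxx
    nlinarith [norm_nonneg (p1 • D.E1 + p2 • D.E2)]
  have hxν : inner ℝ ν (p1 • D.E1 + p2 • D.E2) = 0 := by
    rw [real_inner_comm, inner_add_left, inner_smul_left, inner_smul_left]
    exact hpν
  obtain ⟨U, u, x0, xe, hu, hνu, hq, hU, hx, hx1⟩ := exists_fr D.b D.b_skew ν hν hJ0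
    (p1 • D.E1 + p2 • D.E2) hxn hxν
  let F : FR :=
    { P := D, ν := ν, hν := hν, hmax := hmax, U := U, u := u, x0 := x0, xe := xe, p1 := p1,
      p2 := p2, hu := hu, hνu := hνu, hq := hq, hU := hU, hx := hx, hx1 := hx1, hp1 := hp }
  have hDJ : (1 - (P.tau + 3 * P.lam)) * (1 + F.Dd) ≤ 1 := by
    have h1 := F.J_le
    have h2 : (1 - (P.tau + 3 * P.lam)) * (1 + F.Dd) ≤ (Gr D.b ν).det * (1 + F.Dd) :=
      mul_le_mul_of_nonneg_right hJ (by have := F.Dd_nonneg; linarith)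
    have h3 : (1 + F.Dd) * (Gr D.b ν).det ≤ 1 := h1
    linarith
  refine ⟨F.toNP, ?_, hDJ, ?_, ?_⟩
  · rw [hGJ]
    exact F.int_le
  · intro h
    apply F.s_bound P.s hw _ h
    have h0 := F.Dd_nonneg
    nlinarith
  · intro h
    rw [hdel]
    apply F.zero_case h P.s hw
    · have h1 : ∑ j : Fin 3, inner ℝ (D.Ah j.succ) (D.Ch j.succ)
          = ∑ j : Fin 3, P.A j.succ ⬝ᵥ P.C j.succ := Finset.sum_congr rfl fun j _ => hAC _ _
      exact h1.trans P.al
    · have h1 : ∑ j : Fin 3, inner ℝ (D.Ah j.succ) (D.Ah j.succ)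
          = ∑ j : Fin 3, P.A j.succ ⬝ᵥ P.A j.succ := Finset.sum_congr rfl fun j _ => hAA _ _
      have h2 := P.hl
      push_cast at h2
      have h3 : 2 * ∑ j : Fin 3, inner ℝ (D.Ah j.succ) (D.Ah j.succ) ≤ 3 := by
        rw [h1]; exact h2
      exact h3

end Pool.Agent.W451.N4
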